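import Mathlib
import Pool.Agent.H931R3.Bal15

/-!
# Series sums of the posets with one, three and seven elements

Rank distributions of the elements of series sums of the one-element poset, the three-element poset
with one relation, and the seven-element poset `X7`; all of them are given by weights with
denominator `21`.
-/

open Finset

namespace Pool.Agent.Q66.SP

open Pool.Agent.H13R3.WB Pool.Agent.H931R3.Bal

/-! ### One more point -/

/-- insertion of one point -/
noncomputable def insF (n : ℕ) (p : Fin (n + 1)) : LEn (Fin n ⊕ Fin 1) (n + 1) :=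
  ⟨Equiv.ofBijective (fun z => match z with
      | Sum.inl i => p.succAbove i
      | Sum.inr _ => p) (by
    rw [Fintype.bijective_iff_injective_and_card]
    refine ⟨?_, by simp⟩
    rintro (a | a) (b | b) h
    · rw [Fin.succAbove_right_injective h]
    · exact absurd h (Fin.succAbove_ne p a)
    · exact absurd h.symm (Fin.succAbove_ne p b)
    · rw [Subsingleton.elim a b]), by
    rintro (a | a) (b | b) h
    · exact (Fin.strictMono_succAbove p).monotone (Sum.inl_le_inl_iff.1 h)
    · exact absurd h Sum.not_inl_le_inr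
    · exact absurd h Sum.not_inr_le_inl
    · rw [Subsingleton.elim a b]⟩

lemma insF_inl (n : ℕ) (p : Fin (n + 1)) (i : Fin n) : (insF n p).1 (Sum.inl i) = p.succAbove i :=
  rfl

lemma insF_inr (n : ℕ) (p : Fin (n + 1)) (i : Fin 1) : (insF n p).1 (Sum.inr i) = p := rfl

lemma card_Sh1 (n : ℕ) : Fintype.card (LEn (Fin n ⊕ Fin 1) (n + 1)) = n + 1 := by
  rw [card_Sh, Nat.choose_one_right]

lemma insF_bij (n : ℕ) : Function.Bijective (insF n) := by
  rw [Fintype.bijective_iff_injective_and_card]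
  refine ⟨?_, by rw [card_Sh1, Fintype.card_fin]⟩
  intro p q h
  have h1 := congrArg (fun e : LEn (Fin n ⊕ Fin 1) (n + 1) => e.1 (Sum.inr 0)) h
  simpa [insF_inr] using h1

lemma card_one : Fintype.card (LEn (Fin 1) 1) = 1 := by
  rw [Fintype.card_eq_one_iff]
  refine ⟨⟨Equiv.refl _, fun _ _ h => h⟩, fun f => ?_⟩
  apply Subtype.ext
  apply Equiv.ext
  intro x
  exact Subsingleton.elim _ _

lemma sum_succAbove (n : ℕ) (i : Fin n) (φ : ℕ → ℝ) :
    ∑ p : Fin (n + 1), φ (p.succAbove i) = (n - i) * φ i + (i + 1) * φ (i + 1) := by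
  have h1 : ∀ p : Fin (n + 1), φ (p.succAbove i) =
      if (p : ℕ) < i + 1 then φ (i + 1) else φ i := by
    intro p
    split_ifs with h
    · rw [Fin.succAbove_of_le_castSucc p i (by rw [Fin.le_def, Fin.val_castSucc]; omega)]
      simp
    · rw [Fin.succAbove_of_castSucc_lt p i (by rw [Fin.lt_def, Fin.val_castSucc]; omega)]
      simp
  simp_rw [h1]
  rw [Fin.sum_univ_eq_sum_range (fun p : ℕ => if p < i + 1 then φ (i + 1) else φ i) (n + 1),
    Finset.sum_ite, Finset.sum_const, Finset.sum_const]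
  have h2 : (range (n + 1)).filter (fun p => p < (i : ℕ) + 1) = range ((i : ℕ) + 1) := by
    ext p
    simp only [mem_filter, mem_range]
    have := i.2
    omega
  have h3 : (range (n + 1)).filter (fun p => ¬ p < (i : ℕ) + 1) = Ico ((i : ℕ) + 1) (n + 1) := by
    ext p
    simp only [mem_filter, mem_range, mem_Ico]
    omega
  rw [h2, h3, card_range, Nat.card_Ico, nsmul_eq_mul, nsmul_eq_mul]
  have h4 : n + 1 - ((i : ℕ) + 1) = n - i := by omega
  rw [h4, Nat.cast_sub i.2.le]
  push_cast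
  ring

lemma avg_point_inl {P : Type} [Fintype P] [PartialOrder P] {n : ℕ} (hn : Fintype.card P = n)
    (x : P) (φ : ℕ → ℝ) : avg (P ⊕ Fin 1) (n + 1) (Sum.inl x) φ =
      avg P n x (fun i => ((n - i) * φ i + (i + 1) * φ (i + 1)) / (n + 1)) := by
  unfold avg
  have hm : Fintype.card (Fin 1) = 1 := by simp
  rw [sum_disj hn hm, card_disj hn hm, card_Sh1, card_one]
  simp_rw [sumF_inl]
  have h1 : ∀ i : Fin n, ∑ s : LEn (Fin n ⊕ Fin 1) (n + 1), φ (s.1 (Sum.inl i)) =
      (n - i) * φ i + (i + 1) * φ (i + 1) := by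
    intro i
    rw [← (insF_bij n).sum_comp (fun s => φ (s.1 (Sum.inl i)))]
    simp_rw [insF_inl]
    exact sum_succAbove n i φ
  simp_rw [h1]
  simp only [Finset.sum_const, Finset.card_univ, card_one, one_smul]
  rw [← Finset.sum_div]
  push_cast
  have h5 := card_ne hn
  have h6 : (n : ℝ) + 1 ≠ 0 := by positivity
  field_simp

lemma avg_point_inr {P : Type} [Fintype P] [PartialOrder P] {n : ℕ} (hn : Fintype.card P = n)
    (φ : ℕ → ℝ) : avg (P ⊕ Fin 1) (n + 1) (Sum.inr 0) φ =
      (∑ p ∈ range (n + 1), φ p) / (n + 1) := by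
  unfold avg
  have hm : Fintype.card (Fin 1) = 1 := by simp
  rw [sum_disj hn hm, card_disj hn hm, card_Sh1, card_one]
  simp_rw [sumF_inr]
  have h1 : ∀ i : Fin 1, ∑ s : LEn (Fin n ⊕ Fin 1) (n + 1), φ (s.1 (Sum.inr i)) =
      ∑ p ∈ range (n + 1), φ p := by
    intro i
    rw [← (insF_bij n).sum_comp (fun s => φ (s.1 (Sum.inr i)))]
    simp_rw [insF_inr]
    exact Fin.sum_univ_eq_sum_range φ (n + 1)
  simp_rw [h1]
  simp only [Finset.sum_const, Finset.card_univ, card_one, one_smul, nsmul_eq_mul]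
  push_cast
  have h5 := card_ne hn
  have h6 : (n : ℝ) + 1 ≠ 0 := by positivity
  field_simp

/-! ### Blocks and weights -/

/-- the three kinds of blocks -/
inductive Blk : Type
  | one : Blk
  | three : Blk
  | seven : Blk
  deriving DecidableEq

/-- number of elements of a block -/
def Blk.sz : Blk → ℕ
  | .one => 1
  | .three => 3
  | .seven => 7

/-- rank distributions of the elements of a block, with denominator `21` -/
def Blk.els : Blk → List (List ℕ)
  | .one => [[21]]
  | .three => [[7, 7, 7], [14, 7, 0], [0, 7, 14]]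
  | .seven => [[3, 3, 3, 3, 3, 3, 3], [12, 7, 2, 0, 0, 0, 0], [0, 5, 10, 6, 0, 0, 0],
      [6, 6, 6, 3, 0, 0, 0], [0, 0, 0, 6, 10, 5, 0], [0, 0, 0, 0, 2, 7, 12], [0, 0, 0, 3, 6, 6, 6]]

/-- weighted sum -/
def dotR : List ℕ → (ℕ → ℝ) → ℝ
  | [], _ => 0
  | a :: l, φ => a * φ 0 + dotR l (fun i => φ (i + 1))

/-- evaluation of a code: `(s, l)` is an element whose rank is `s + t` with probability
`l_t / 21` -/
noncomputable def evc (cd : ℕ × List ℕ) (φ : ℕ → ℝ) : ℝ := dotR cd.2 (fun t => φ (cd.1 + t)) / 21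

/-- number of elements of a word -/
def len : List Blk → ℕ
  | [] => 0
  | b :: w => b.sz + len w

/-- codes of the elements of a word -/
def codes : ℕ → List Blk → List (ℕ × List ℕ)
  | _, [] => []
  | s, b :: w => b.els.map (fun l => (s, l)) ++ codes (s + b.sz) w

lemma len_append (w v : List Blk) : len (w ++ v) = len w + len v := by
  induction w with
  | nil => simp [len]
  | cons b w ih => simp [len, ih]; ring

lemma codes_append (w v : List Blk) (s : ℕ) :
    codes s (w ++ v) = codes s w ++ codes (s + len w) v := by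
  induction w generalizing s with
  | nil => simp [len, codes]
  | cons b w ih =>
    simp only [List.cons_append, codes, len, ih, List.append_assoc]
    rw [show s + b.sz + len w = s + (b.sz + len w) by ring]

lemma sz_pos (b : Blk) : 0 < b.sz := by cases b <;> simp [Blk.sz]

lemma len_eq_zero {w : List Blk} (h : len w = 0) : w = [] := by
  cases w with
  | nil => rfl
  | cons b w =>
    have := sz_pos b
    simp only [len] at h
    omega

/-! ### The seven-element poset -/

lemma card_EE : Fintype.card EE = 3 := by simp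

lemma card_EE2 : Fintype.card (EE ⊕ₗ EE) = 6 := by rw [card_lexS]; simp

lemma avg_X7_point (φ : ℕ → ℝ) : avg X7 7 (Sum.inr 0) φ =
    dotR [3, 3, 3, 3, 3, 3, 3] φ / 21 := by
  have h := avg_point_inr (P := EE ⊕ₗ EE) card_EE2 φ
  rw [show (7 : ℕ) = 6 + 1 by rfl, h]
  simp only [Finset.sum_range_succ, Finset.sum_range_zero, dotR]
  push_cast
  ring

lemma avg_X7_low (z : EE) (φ : ℕ → ℝ) : avg X7 7 (Sum.inl (toLex (Sum.inl z))) φ =
    avg EE 3 z (fun i => ((6 - i) * φ i + (i + 1) * φ (i + 1)) / 7) := by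
  have h := avg_point_inl (P := EE ⊕ₗ EE) card_EE2 (toLex (Sum.inl z)) φ
  have h2 := avg_lex_inl (P := EE) (Q := EE) card_EE card_EE z
    (fun i => ((6 - i) * φ i + (i + 1) * φ (i + 1)) / 7)
  rw [show (7 : ℕ) = 6 + 1 by rfl, h, ← h2]
  norm_num

lemma avg_X7_high (z : EE) (φ : ℕ → ℝ) : avg X7 7 (Sum.inl (toLex (Sum.inr z))) φ =
    avg EE 3 z (fun i => ((3 - i) * φ (3 + i) + (i + 4) * φ (3 + i + 1)) / 7) := by
  have h := avg_point_inl (P := EE ⊕ₗ EE) card_EE2 (toLex (Sum.inr z)) φ
  have h2 := avg_lex_inr (P := EE) (Q := EE) card_EE card_EE z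
    (fun i => ((6 - i) * φ i + (i + 1) * φ (i + 1)) / 7)
  rw [show (7 : ℕ) = 6 + 1 by rfl, h]
  have h3 : (fun i : ℕ => ((((6 : ℕ) : ℝ) - (i : ℝ)) * φ i + ((i : ℝ) + 1) * φ (i + 1)) /
      (((6 : ℕ) : ℝ) + 1)) = fun i : ℕ => ((6 - (i : ℝ)) * φ i + ((i : ℝ) + 1) * φ (i + 1)) / 7 := by
    funext i
    norm_num
  rw [h3]
  refine h2.trans ?_
  congr 1
  funext i
  push_cast
  ring

/-- elements of the seven-element poset realise the weights -/
lemma seven_els : ∀ l ∈ Blk.seven.els, ∃ x : X7, ∀ φ : ℕ → ℝ, avg X7 7 x φ = dotR l φ / 21 := by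
  intro l hl
  simp only [Blk.els, List.mem_cons, List.not_mem_nil, or_false] at hl
  rcases hl with rfl | rfl | rfl | rfl | rfl | rfl | rfl
  · exact ⟨Sum.inr 0, avg_X7_point⟩
  · refine ⟨Sum.inl (toLex (Sum.inl (Sum.inl 0))), fun φ => ?_⟩
    rw [avg_X7_low, avgE]
    simp [tab, dotR]
    ring
  · refine ⟨Sum.inl (toLex (Sum.inl (Sum.inl 1))), fun φ => ?_⟩
    rw [avg_X7_low, avgE]
    simp [tab, dotR]
    ring
  · refine ⟨Sum.inl (toLex (Sum.inl (Sum.inr 0))), fun φ => ?_⟩
    rw [avg_X7_low, avgE]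
    simp [tab, dotR]
    ring
  · refine ⟨Sum.inl (toLex (Sum.inr (Sum.inl 0))), fun φ => ?_⟩
    rw [avg_X7_high, avgE]
    simp [tab, dotR]
    ring
  · refine ⟨Sum.inl (toLex (Sum.inr (Sum.inl 1))), fun φ => ?_⟩
    rw [avg_X7_high, avgE]
    simp [tab, dotR]
    ring
  · refine ⟨Sum.inl (toLex (Sum.inr (Sum.inr 0))), fun φ => ?_⟩
    rw [avg_X7_high, avgE]
    simp [tab, dotR]
    ring

lemma three_els : ∀ l ∈ Blk.three.els, ∃ x : EE, ∀ φ : ℕ → ℝ, avg EE 3 x φ = dotR l φ / 21 := by
  intro l hl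
  simp only [Blk.els, List.mem_cons, List.not_mem_nil, or_false] at hl
  rcases hl with rfl | rfl | rfl
  · refine ⟨Sum.inr 0, fun φ => ?_⟩
    rw [avgE]
    simp [tab, dotR]
    ring
  · refine ⟨Sum.inl 0, fun φ => ?_⟩
    rw [avgE]
    simp [tab, dotR]
    ring
  · refine ⟨Sum.inl 1, fun φ => ?_⟩
    rw [avgE]
    simp [tab, dotR]
    ring

lemma one_els : ∀ l ∈ Blk.one.els, ∃ x : Fin 1, ∀ φ : ℕ → ℝ, avg (Fin 1) 1 x φ = dotR l φ / 21 := by
  intro l hl
  simp only [Blk.els, List.mem_singleton] at hl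
  subst hl
  refine ⟨0, fun φ => ?_⟩
  rw [avg_one]
  simp [dotR]

/-! ### Words of blocks -/

/-- `P` is the series sum of the blocks of the word `w` -/
inductive Rep : List Blk → (P : Type) → [PartialOrder P] → Prop
  | one (P : Type) [PartialOrder P] : Nonempty (P ≃o Fin 1) → Rep [Blk.one] P
  | three (P : Type) [PartialOrder P] : Nonempty (P ≃o EE) → Rep [Blk.three] P
  | seven (P : Type) [PartialOrder P] : Nonempty (P ≃o X7) → Rep [Blk.seven] P
  | sum (w v : List Blk) (P Q R : Type) [PartialOrder P] [PartialOrder Q] [PartialOrder R] :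
      Rep w P → Rep v Q → Nonempty (R ≃o (P ⊕ₗ Q)) → Rep (w ++ v) R

lemma Rep.data {w : List Blk} {P : Type} [PartialOrder P] (h : Rep w P) :
    w ≠ [] ∧ Nat.card P = len w ∧ Finite P ∧ ∀ s : ℕ, ∀ cd ∈ codes s w,
      ∃ x : P, ∀ φ : ℕ → ℝ, avg P (len w) x (fun i => φ (s + i)) = evc cd φ := by
  have hb : ∀ (b : Blk) (A P : Type) [PartialOrder A] [PartialOrder P] (e : P ≃o A) [Finite A],
      Nat.card A = b.sz → (∀ l ∈ b.els, ∃ x : A, ∀ φ : ℕ → ℝ, avg A b.sz x φ = dotR l φ / 21) →
      [b] ≠ [] ∧ Nat.card P = len [b] ∧ Finite P ∧ ∀ s : ℕ, ∀ cd ∈ codes s [b],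
        ∃ x : P, ∀ φ : ℕ → ℝ, avg P (len [b]) x (fun i => φ (s + i)) = evc cd φ := by
    intro b A P _ _ e _ hc hel
    refine ⟨by simp, by rw [Nat.card_congr e.toEquiv, hc]; simp [len],
      Finite.of_equiv _ e.symm.toEquiv, ?_⟩
    intro s cd hcd
    simp only [codes, List.append_nil, List.mem_map] at hcd
    obtain ⟨l, hl, rfl⟩ := hcd
    obtain ⟨x, hx⟩ := hel l hl
    refine ⟨e.symm x, fun φ => ?_⟩
    have : len [b] = b.sz := by simp [len]
    rw [this, avg_iso e.symm, hx]
    rfl
  induction h with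
  | one P e =>
    obtain ⟨e⟩ := e
    exact hb Blk.one (Fin 1) P e (by simp [Blk.sz]) one_els
  | three P e =>
    obtain ⟨e⟩ := e
    exact hb Blk.three EE P e (by rw [Nat.card_eq_fintype_card, card_EE]; rfl) three_els
  | seven P e =>
    obtain ⟨e⟩ := e
    exact hb Blk.seven X7 P e (by
      rw [Nat.card_eq_fintype_card, Fintype.card_sum, card_EE2]; rfl) seven_els
  | sum w v P Q R hP hQ e ihP ihQ =>
    obtain ⟨e⟩ := e
    obtain ⟨hw, hcw, hfw, hvw⟩ := ihP
    obtain ⟨hv, hcv, hfv, hvv⟩ := ihQ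
    have := Fintype.ofFinite P
    have := Fintype.ofFinite Q
    have h1 : Fintype.card P = len w := by rw [← hcw, Nat.card_eq_fintype_card]
    have h2 : Fintype.card Q = len v := by rw [← hcv, Nat.card_eq_fintype_card]
    have hfs : Finite (P ⊕ₗ Q) := (inferInstance : Finite (P ⊕ Q))
    refine ⟨by simp [hw], ?_, Finite.of_equiv _ e.symm.toEquiv, ?_⟩
    · rw [Nat.card_congr e.toEquiv, len_append, ← hcw, ← hcv]
      exact Nat.card_sum
    · intro s a ha
      rw [codes_append, List.mem_append] at ha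
      rw [len_append]
      rcases ha with ha | ha
      · obtain ⟨x, hx⟩ := hvw s a ha
        refine ⟨e.symm (toLex (Sum.inl x)), fun φ => ?_⟩
        rw [avg_iso e.symm, avg_lex_inl h1 h2, hx]
      · obtain ⟨y, hy⟩ := hvv (s + len w) a ha
        refine ⟨e.symm (toLex (Sum.inr y)), fun φ => ?_⟩
        rw [avg_iso e.symm, avg_lex_inr h1 h2, ← hy]
        congr 1
        funext i
        rw [add_assoc]

lemma Rep.iso {w : List Blk} {P R : Type} [PartialOrder P] [PartialOrder R] (h : Rep w P)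
    (e : P ≃o R) : Rep w R := by
  cases h with
  | one _ e1 => exact Rep.one R (e1.map fun e1 => e.symm.trans e1)
  | three _ e1 => exact Rep.three R (e1.map fun e1 => e.symm.trans e1)
  | seven _ e1 => exact Rep.seven R (e1.map fun e1 => e.symm.trans e1)
  | sum w v A B _ hA hB e1 => exact Rep.sum w v A B R hA hB (e1.map fun e1 => e.symm.trans e1)

lemma Rep.of_one {w : List Blk} {P : Type} [PartialOrder P] (h : Rep w P) (hw : w = [Blk.one]) :
    Nonempty (P ≃o Fin 1) := by
  cases h with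
  | one _ e1 => exact e1
  | three _ e1 => simp at hw
  | seven _ e1 => simp at hw
  | sum w v A B _ hA hB e1 =>
    have h1 := hA.data.1
    have h2 := hB.data.1
    rcases List.append_eq_singleton_iff.1 hw with ⟨h, _⟩ | ⟨_, h⟩
    · exact absurd h h1
    · exact absurd h h2

lemma Rep.of_three {w : List Blk} {P : Type} [PartialOrder P] (h : Rep w P)
    (hw : w = [Blk.three]) : Nonempty (P ≃o EE) := by
  cases h with
  | one _ e1 => simp at hw
  | three _ e1 => exact e1
  | seven _ e1 => simp at hw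
  | sum w v A B _ hA hB e1 =>
    have h1 := hA.data.1
    have h2 := hB.data.1
    rcases List.append_eq_singleton_iff.1 hw with ⟨h, _⟩ | ⟨_, h⟩
    · exact absurd h h1
    · exact absurd h h2

lemma Rep.of_pair {w : List Blk} {P : Type} [PartialOrder P] (h : Rep w P) {a b : Blk}
    (hw : w = [a, b]) : ∃ (A B : Type) (_ : PartialOrder A) (_ : PartialOrder B),
      Rep [a] A ∧ Rep [b] B ∧ Nonempty (P ≃o (A ⊕ₗ B)) := by
  cases h with
  | one _ e1 => simp at hw
  | three _ e1 => simp at hw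
  | seven _ e1 => simp at hw
  | sum w v A B _ hA hB e1 =>
    have h1 := hA.data.1
    have h2 := hB.data.1
    match w, h1, hw, hA with
    | [], h1, _, _ => exact absurd rfl h1
    | [x], _, hw, hA =>
      simp only [List.cons_append, List.nil_append, List.cons.injEq] at hw
      obtain ⟨rfl, rfl⟩ := hw
      exact ⟨A, B, inferInstance, inferInstance, hA, hB, e1⟩
    | x :: y :: t, _, hw, _ =>
      simp only [List.cons_append, List.cons.injEq, List.append_eq_nil_iff] at hw
      exact absurd hw.2.2.2 h2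

/-- The smallest class of posets closed under isomorphism that contains the one-element poset, the
three-element poset with one relation and the seven-element poset `X7`, and is closed under direct
(ordinal) sums. -/
inductive InD7 : (P : Type) → [PartialOrder P] → Prop
  | one (P : Type) [PartialOrder P] : Nonempty (P ≃o Fin 1) → InD7 P
  | three (P : Type) [PartialOrder P] : Nonempty (P ≃o (Fin 2 ⊕ Fin 1)) → InD7 P
  | seven (P : Type) [PartialOrder P] :
      Nonempty (P ≃o (((Fin 2 ⊕ Fin 1) ⊕ₗ (Fin 2 ⊕ Fin 1)) ⊕ Fin 1)) → InD7 P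
  | sum (P Q R : Type) [PartialOrder P] [PartialOrder Q] [PartialOrder R] :
      InD7 P → InD7 Q → Nonempty (R ≃o (P ⊕ₗ Q)) → InD7 R

lemma InD7.rep {P : Type} [PartialOrder P] (h : InD7 P) : ∃ w, Rep w P := by
  induction h with
  | one P e => exact ⟨_, Rep.one P e⟩
  | three P e => exact ⟨_, Rep.three P e⟩
  | seven P e => exact ⟨_, Rep.seven P e⟩
  | sum P Q R _ _ e i1 i2 =>
    obtain ⟨w, hw⟩ := i1
    obtain ⟨v, hv⟩ := i2
    exact ⟨_, Rep.sum w v P Q R hw hv e⟩

lemma InD7.iso {P R : Type} [PartialOrder P] [PartialOrder R] (h : InD7 P) (e : P ≃o R) :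
    InD7 R := by
  cases h with
  | one _ e1 => exact InD7.one R (e1.map fun e1 => e.symm.trans e1)
  | three _ e1 => exact InD7.three R (e1.map fun e1 => e.symm.trans e1)
  | seven _ e1 => exact InD7.seven R (e1.map fun e1 => e.symm.trans e1)
  | sum A B _ hA hB e1 => exact InD7.sum A B R hA hB (e1.map fun e1 => e.symm.trans e1)

lemma InD7.nonempty {P : Type} [PartialOrder P] (h : InD7 P) : Nonempty P := by
  obtain ⟨w, hw⟩ := h.rep
  obtain ⟨h1, h2, h3, _⟩ := hw.data
  have : 0 < Nat.card P := by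
    rw [h2]
    rcases Nat.eq_zero_or_pos (len w) with h0 | h0
    · exact absurd (len_eq_zero h0) h1
    · exact h0
  exact (Nat.card_pos_iff.1 this).1

end Pool.Agent.Q66.SP
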