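import Mathlib
import Pool.Agent.Q66.SP.Sp1

/-!
# The search for words which avoid the window
-/

open Finset

namespace Pool.Agent.Q66.SP

open Pool.Agent.H13R3.WB Pool.Agent.H931R3.Bal

/-- weighted sum of the entries of a list -/
def dotN : List ℕ → List ℕ → ℕ
  | a :: l, b :: t => a * b + dotN l t
  | _, _ => 0

/-- weighted sum of the values of a function -/
def dotF : List ℕ → (ℕ → ℕ) → ℕ
  | [], _ => 0
  | a :: l, g => a * g 0 + dotF l (fun i => g (i + 1))

/-- the list of the values at `s, s + 1, ..., s + c - 1` -/
def tl (g : ℕ → ℕ) : ℕ → ℕ → List ℕ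
  | _, 0 => []
  | s, c + 1 => g s :: tl g (s + 1) c

lemma dotN_tl (g : ℕ → ℕ) : ∀ (l : List ℕ) (s c : ℕ), l.length ≤ c →
    dotN l (tl g s c) = dotF l (fun t => g (s + t)) := by
  intro l
  induction l with
  | nil => intro s c _; simp [dotN, dotF]
  | cons a l ih =>
    intro s c hc
    obtain ⟨c, rfl⟩ : ∃ c', c = c' + 1 := ⟨c - 1, by simp at hc; omega⟩
    simp only [tl, dotN, dotF]
    rw [ih (s + 1) c (by simpa using hc)]
    congr 2
    funext t
    rw [show s + 1 + t = s + (t + 1) by ring]

/-- the value `v` lies in the window, `T` being the denominator -/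
def inWin (T v : ℕ) : Bool := decide (2 * T ≤ 5 * v) && decide (5 * v ≤ 3 * T)

/-- the largest value of the block is not below the window, the smallest one is not above it -/
def near (T : ℕ) (b : Blk) (ys : List ℕ) : Bool :=
  decide (2 * T ≤ 105 * ys.getD 0 0) && decide (105 * ys.getD (b.sz - 1) 0 ≤ 3 * T)

/-- some element of the block has a value in the window, for some list of values -/
def hitM (T : ℕ) (b : Blk) (L : List (List ℕ)) : Bool :=
  L.any fun ys => near T b ys && b.els.any fun l => inWin T (dotN l ys)

/-- one step of the search -/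
def stepM (T : ℕ) (L : List (List ℕ)) (c : List Bool) : Bool :=
  match c with
  | [] => true
  | _ :: _ => (c.getD 0 false && !hitM T .one L) || (c.getD 2 false && !hitM T .three L) ||
      (c.getD 6 false && !hitM T .seven L)

/-- the search: is there a word whose elements all avoid the window? -/
def canM (T : ℕ) : ℕ → List (List ℕ) → List Bool
  | 0, _ => []
  | k + 1, L => match canM T k (L.map List.tail) with
    | [] => [true]
    | x :: c => stepM T (L.map List.tail) (x :: c) :: x :: c

/-- the lists of values of the functions in `gs` -/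
def LL (gs : List (ℕ → ℕ)) (s c : ℕ) : List (List ℕ) := gs.map fun g => tl g s c

lemma LL_tail (gs : List (ℕ → ℕ)) (s c : ℕ) : (LL gs s (c + 1)).map List.tail = LL gs (s + 1) c := by
  unfold LL
  rw [List.map_map]
  rfl

lemma canM_length (T : ℕ) : ∀ k L, (canM T k L).length = k := by
  intro k
  induction k with
  | zero => intro L; rfl
  | succ k ih =>
    intro L
    have h := ih (L.map List.tail)
    unfold canM
    cases hc : canM T k (L.map List.tail) with
    | nil => rw [hc] at h; simp at h ⊢; omega
    | cons x c => rw [hc] at h; simp at h ⊢; omega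

lemma canM_succ (T k : ℕ) (L : List (List ℕ)) : canM T (k + 1) L =
    stepM T (L.map List.tail) (canM T k (L.map List.tail)) :: canM T k (L.map List.tail) := by
  rw [canM]
  cases canM T k (L.map List.tail) with
  | nil => rfl
  | cons x c => rfl

lemma canM_getD (T : ℕ) (gs : List (ℕ → ℕ)) : ∀ j k s, j < k →
    (canM T k (LL gs s (k + 1))).getD j false =
      (canM T (k - j) (LL gs (s + j) (k + 1 - j))).getD 0 false := by
  intro j
  induction j with
  | zero => intro k s _; simp
  | succ j ih =>
    intro k s hk
    obtain ⟨k, rfl⟩ : ∃ k', k = k' + 1 := ⟨k - 1, by omega⟩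
    rw [canM_succ, List.getD_cons_succ, LL_tail, ih k (s + 1) (by omega)]
    rw [show k + 1 - (j + 1) = k - j by omega, show s + 1 + j = s + (j + 1) by ring,
      show k + 1 + 1 - (j + 1) = k + 1 - j by omega]

/-- a code is hit -/
def HitC (T : ℕ) (gs : List (ℕ → ℕ)) (cd : ℕ × List ℕ) : Prop :=
  ∃ g ∈ gs, 2 * T ≤ 5 * dotF cd.2 (fun t => g (cd.1 + t + 1)) ∧
    5 * dotF cd.2 (fun t => g (cd.1 + t + 1)) ≤ 3 * T

lemma els_len (b : Blk) : ∀ l ∈ b.els, l.length ≤ b.sz := by
  cases b <;> simp [Blk.els, Blk.sz]

lemma hitM_spec {T : ℕ} {b : Blk} {gs : List (ℕ → ℕ)} {s c : ℕ} (hc : b.sz ≤ c)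
    (h : hitM T b (LL gs (s + 1) c) = true) : ∃ l ∈ b.els, HitC T gs (s, l) := by
  unfold hitM LL at h
  rw [List.any_map, List.any_eq_true] at h
  obtain ⟨g, hg, h⟩ := h
  simp only [Function.comp, Bool.and_eq_true] at h
  replace h := h.2
  rw [List.any_eq_true] at h
  obtain ⟨l, hl, h⟩ := h
  refine ⟨l, hl, g, hg, ?_⟩
  rw [dotN_tl g l (s + 1) c ((els_len b l hl).trans hc)] at h
  unfold inWin at h
  rw [Bool.and_eq_true, decide_eq_true_eq, decide_eq_true_eq] at h
  have e : (fun t => g (s + 1 + t)) = fun t => g (s + t + 1) := by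
    funext t
    rw [show s + 1 + t = s + t + 1 by ring]
  rw [e] at h
  exact h

/-- soundness of the search -/
lemma canM_sound {T : ℕ} {gs : List (ℕ → ℕ)} : ∀ (w : List Blk) (s : ℕ),
    (∀ cd ∈ codes s w, ¬ HitC T gs cd) →
    (canM T (len w + 1) (LL gs s (len w + 2))).getD 0 false = true := by
  intro w
  induction w with
  | nil =>
    intro s _
    simp [len, canM]
  | cons b w ih =>
    intro s h
    have h1 := ih (s + b.sz) (fun cd hcd => h cd (by
      simp only [codes, List.mem_append]; exact Or.inr hcd))
    have hb : hitM T b (LL gs (s + 1) (len (b :: w) + 1)) = false := by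
      by_contra hc
      rw [Bool.not_eq_false] at hc
      obtain ⟨l, hl, h2⟩ := hitM_spec (by simp only [len]; omega) hc
      exact h (s, l) (by
        simp only [codes, List.mem_append, List.mem_map]
        exact Or.inl ⟨l, hl, rfl⟩) h2
    rw [canM_succ, LL_tail]
    rw [List.getD_cons_zero]
    have hsz := sz_pos b
    have hlen : len (b :: w) = b.sz + len w := rfl
    have hg := canM_getD T gs (b.sz - 1) (len (b :: w)) (s + 1) (by omega)
    rw [show len (b :: w) - (b.sz - 1) = len w + 1 by omega,
      show s + 1 + (b.sz - 1) = s + b.sz by omega,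
      show len (b :: w) + 1 - (b.sz - 1) = len w + 2 by omega, h1] at hg
    have hne : canM T (len (b :: w)) (LL gs (s + 1) (len (b :: w) + 1)) ≠ [] := by
      intro h0
      have := canM_length T (len (b :: w)) (LL gs (s + 1) (len (b :: w) + 1))
      rw [h0] at this
      simp at this
      omega
    revert hg hne
    generalize canM T (len (b :: w)) (LL gs (s + 1) (len (b :: w) + 1)) = c
    intro hg hne
    cases c with
    | nil => exact absurd rfl hne
    | cons x c =>
      unfold stepM
      cases b <;> simp only [Blk.sz] at hg <;> norm_num at hg <;> simp [hg, hb]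

/-- every word is hit -/
lemma all_hit {T : ℕ} {gs : List (ℕ → ℕ)} {w : List Blk}
    (h : (canM T (len w + 1) (LL gs 0 (len w + 2))).getD 0 false = false) :
    ∃ cd ∈ codes 0 w, HitC T gs cd := by
  by_contra hc
  push Not at hc
  rw [canM_sound w 0 hc] at h
  exact absurd h (by simp)

/-- words with a given number of elements, with fuel -/
def wlF : ℕ → ℕ → List (List Blk)
  | 0, n => if n = 0 then [[]] else []
  | f + 1, n => if n = 0 then [[]] else (wlF f (n - 1)).map (List.cons .one) ++
      ((if 3 ≤ n then (wlF f (n - 3)).map (List.cons .three) else []) ++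
        (if 7 ≤ n then (wlF f (n - 7)).map (List.cons .seven) else []))

/-- words with a given number of elements -/
def wl (n : ℕ) : List (List Blk) := wlF n n

lemma mem_wlF : ∀ (w : List Blk) (f : ℕ), len w ≤ f → w ∈ wlF f (len w) := by
  intro w
  induction w with
  | nil =>
    intro f _
    cases f <;> simp [wlF, len]
  | cons b w ih =>
    intro f hf
    have hsz := sz_pos b
    simp only [len] at hf ⊢
    obtain ⟨f, rfl⟩ : ∃ f', f = f' + 1 := ⟨f - 1, by omega⟩
    have h1 := ih f (by omega)
    unfold wlF
    rw [if_neg (by omega), List.mem_append, List.mem_append]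
    cases b
    · left
      simp only [Blk.sz]
      rw [show 1 + len w - 1 = len w by omega]
      exact List.mem_map_of_mem h1
    · right; left
      simp only [Blk.sz]
      rw [if_pos (by omega), show 3 + len w - 3 = len w by omega]
      exact List.mem_map_of_mem h1
    · right; right
      simp only [Blk.sz]
      rw [if_pos (by omega), show 7 + len w - 7 = len w by omega]
      exact List.mem_map_of_mem h1

lemma mem_wl (w : List Blk) : w ∈ wl (len w) := mem_wlF w _ le_rfl

/-- every rank belongs to a block -/
lemma cover : ∀ (w : List Blk) (s0 r : ℕ), s0 ≤ r → r < s0 + len w →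
    ∃ (b : Blk) (s : ℕ), s0 ≤ s ∧ s ≤ r ∧ r < s + b.sz ∧ s + b.sz ≤ s0 + len w ∧
      ∀ l ∈ b.els, (s, l) ∈ codes s0 w := by
  intro w
  induction w with
  | nil => intro s0 r h1 h2; simp [len] at h2; omega
  | cons b w ih =>
    intro s0 r h1 h2
    simp only [len] at h2
    by_cases h : r < s0 + b.sz
    · refine ⟨b, s0, le_rfl, h1, h, by simp only [len]; omega, fun l hl => ?_⟩
      simp only [codes, List.mem_append, List.mem_map]
      exact Or.inl ⟨l, hl, rfl⟩
    · obtain ⟨b', s, a1, a2, a3, a4, a5⟩ := ih (s0 + b.sz) r (by omega) (by omega)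
      refine ⟨b', s, by omega, a2, a3, by simp only [len]; omega, fun l hl => ?_⟩
      simp only [codes, List.mem_append]
      exact Or.inr (a5 l hl)

/-- valid codes -/
def Valid (m : ℕ) (cd : ℕ × List ℕ) : Prop := cd.1 + cd.2.length ≤ m ∧ cd.2.sum = 21

lemma els_sum (b : Blk) : ∀ l ∈ b.els, l.sum = 21 := by
  cases b <;> simp [Blk.els]

lemma codes_valid : ∀ (w : List Blk) (s : ℕ) (cd : ℕ × List ℕ), cd ∈ codes s w →
    Valid (s + len w) cd := by
  intro w
  induction w with
  | nil => intro s cd h; simp [codes] at h
  | cons b w ih =>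
    intro s cd h
    simp only [codes, List.mem_append, List.mem_map] at h
    rcases h with ⟨l, hl, rfl⟩ | h
    · have := els_len b l hl
      exact ⟨by simp only [len]; omega, els_sum b l hl⟩
    · have := ih _ _ h
      simp only [len]
      rw [← add_assoc]
      exact this

end Pool.Agent.Q66.SP
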