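import Mathlib
import Pool.Agent.Q66.SP.Sp2

/-!
# Kernel computations for small sizes
-/

open Finset

namespace Pool.Agent.Q66.SP

open Pool.Agent.H13R3.WB Pool.Agent.H931R3.Bal

/-- number of interleavings with exactly `i` elements of the first chain before a random element of
the second chain, with denominator `21` -/
def fN (n m : ℕ) (cd : ℕ × List ℕ) (i : ℕ) : ℕ := dotF cd.2 (fun u => Df n m (cd.1 + u) i)

/-- tail sums -/
def gN (n m : ℕ) (cd : ℕ × List ℕ) (i : ℕ) : ℕ := ∑ k ∈ Ico i (n + 1), fN n m cd k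

/-- successive numbers of interleavings, starting with the value `v` at `i` -/
def dl (j b : ℕ) : ℕ → ℕ → ℕ → List ℕ
  | 0, _, v => [v]
  | c + 1, i, v => v :: dl j b c (i + 1) (v * ((i + 1 + j) * (c + 1)) / ((i + 1) * (c + 1 + b)))

/-- tail sums of a list -/
def suf : List ℕ → List ℕ
  | [] => [0]
  | x :: t => match suf t with
    | [] => [x]
    | y :: ys => (x + y) :: y :: ys

/-- the tail sums for the rank `j` -/
def KL (n m j : ℕ) : List ℕ := suf (dl j (m - 1 - j) n 0 (ch (n + (m - 1 - j)) (m - 1 - j)))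

/-- the tail sums for all ranks -/
def rowsL (n m : ℕ) : List (List ℕ) := (List.range m).map (KL n m)

/-- weighted sum of lists -/
def gl (n : ℕ) : List ℕ → List (List ℕ) → List ℕ
  | [], _ => List.replicate (n + 2) 0
  | _ :: _, [] => []
  | a :: l, r :: R => if a = 0 then gl n l R else List.zipWith (fun x y => a * x + y) r (gl n l R)

/-- list of the tail sums of a code -/
def gsl (n m : ℕ) (cd : ℕ × List ℕ) : List ℕ := gl n cd.2 ((rowsL n m).drop cd.1)

/-- the check for some codes of the second poset -/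
def good (n m : ℕ) (cds : List (ℕ × List ℕ)) : Bool :=
  !(canM (441 * ch (n + m) m) (n + 1) (cds.map (gsl n m))).getD 0 false

/-- the check for one rank -/
def okRow (n m r : ℕ) : Bool :=
  decide (r < m) && good n m [(r, [21])] &&
  ((List.range 3).all fun d => decide (r < d) || decide (m < (r - d) + 3) ||
    Blk.three.els.any fun l => good n m [(r - d, l)]) &&
  ((List.range 7).all fun d => decide (r < d) || decide (m < (r - d) + 7) ||
    Blk.seven.els.any fun l => good n m [(r - d, l)])

/-- exceptional choices of the rank -/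
def tabA : List (ℕ × ℕ × ℕ) := [(4, 3, 0), (8, 3, 0), (10, 3, 0), (11, 4, 0), (6, 5, 0), (12, 5, 1), (14, 5, 1), (16, 5, 1), (7, 6, 0), (9, 6, 0), (8, 7, 1), (12, 7, 2), (16, 7, 2), (18, 7, 2), (9, 8, 1), (10, 8, 0), (11, 8, 2), (14, 8, 2), (10, 9, 1), (12, 9, 0), (14, 9, 1), (16, 9, 3), (20, 9, 3), (11, 10, 1), (15, 10, 3), (12, 11, 1), (14, 11, 0), (15, 11, 2), (18, 11, 3), (20, 11, 4), (13, 12, 1), (15, 12, 4), (16, 12, 2), (17, 12, 4), (14, 13, 1), (16, 13, 4), (18, 13, 4), (20, 13, 3), (22, 13, 5), (15, 14, 3), (17, 14, 5), (16, 15, 4), (18, 15, 5), (20, 15, 2), (22, 15, 4), (24, 15, 6), (17, 16, 5), (19, 16, 6), (18, 17, 5), (20, 17, 6), (22, 17, 7), (24, 17, 7), (19, 18, 5), (21, 18, 7), (20, 19, 5), (22, 19, 8), (24, 19, 8), (26, 19, 8), (21, 20, 5), (23, 20, 8), (22, 21, 5), (24, 21, 9), (26, 21, 9), (23, 22, 5), (25, 22, 9), (24, 23, 5), (26, 23, 10), (28, 23, 10), (25, 24, 7), (26, 25, 8), (28, 25, 11), (27, 26, 10), (28, 27, 11), (29, 28, 12), (30, 29, 13)]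

/-- the chosen rank -/
def rA (n m : ℕ) : ℕ :=
  match tabA.find? (fun t => t.1 == n && t.2.1 == m) with
  | some t => t.2.2
  | none => (m - 1) / 2

/-- for `n` at least this number the jumps are small -/
def nm (m : ℕ) : ℕ := [0, 10, 19, 28, 37, 19, 22, 26, 29, 25, 27, 25, 27, 26, 27, 27, 28, 28, 29, 29, 29, 29, 30, 30, 31, 31, 32, 32, 33, 32, 33, 33, 34, 34, 34, 35, 36].getD m 37

/-- exceptional sizes -/
def tabX : List (ℕ × ℕ) := [(4, 2), (6, 3), (6, 4), (8, 4), (7, 5), (8, 5), (10, 5), (12, 6), (10, 7), (11, 7), (14, 7), (12, 8), (13, 8), (16, 8), (13, 9), (18, 9), (20, 10), (16, 11), (19, 13)]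

/-- the check for an exceptional pair of sizes: all words of the second poset -/
def okX (n m : ℕ) : Bool := (wl m).all fun v =>
  (codes 0 v).any (fun cd => good n m [cd]) || good n m (codes 0 v)

/-- the check for all first sizes below `nm m` -/
def okM (m : ℕ) : Bool := (List.range (nm m)).all fun n => decide (n < m) ||
  decide (n = 2 ∧ m = 1) || decide (n = 6 ∧ m = 1) || tabX.contains (n, m) || okRow n m (rA n m)

lemma dotF_congr : ∀ (l : List ℕ) {g h : ℕ → ℕ}, (∀ t < l.length, g t = h t) →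
    dotF l g = dotF l h := by
  intro l
  induction l with
  | nil => intro g h _; rfl
  | cons a l ih =>
    intro g h hgh
    simp only [dotF]
    rw [hgh 0 (by simp), ih (fun t ht => hgh (t + 1) (by simpa using ht))]

lemma dotF_sum {ι : Type} (s : Finset ι) (l : List ℕ) : ∀ (F : ℕ → ι → ℕ),
    ∑ k ∈ s, dotF l (fun u => F u k) = dotF l (fun u => ∑ k ∈ s, F u k) := by
  induction l with
  | nil => intro F; simp [dotF]
  | cons a l ih =>
    intro F
    simp only [dotF]
    rw [Finset.sum_add_distrib, ← Finset.mul_sum, ih (fun u => F (u + 1))]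

lemma dotF_const (l : List ℕ) (c : ℕ) : dotF l (fun _ => c) = l.sum * c := by
  induction l with
  | nil => simp [dotF]
  | cons a l ih => simp only [dotF, ih, List.sum_cons]; ring

/-- tail sums in terms of `Kf` -/
lemma gN_eq {n m : ℕ} {cd : ℕ × List ℕ} (h : Valid m cd) {i : ℕ} (hi : i ≤ n + 1) :
    gN n m cd i = dotF cd.2 (fun u => Kf n m (cd.1 + u) i) := by
  unfold gN fN
  rw [dotF_sum]
  apply dotF_congr
  intro t ht
  have h1 : cd.1 + t < m := by have := h.1; omega
  rw [Kf_eq_sum h1 (n + 1 - i) i (by omega)]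
  apply Finset.sum_congr rfl
  intro k _
  rw [Df_eq]

lemma gN_zero {n m : ℕ} {cd : ℕ × List ℕ} (h : Valid m cd) :
    gN n m cd 0 = 21 * (n + m).choose m := by
  rw [gN_eq h (by omega)]
  rw [dotF_congr cd.2 (h := fun _ => (n + m).choose m) (fun t ht => Kf_zero (by
    have := h.1; omega)), dotF_const, h.2]

lemma gN_end (n m : ℕ) (cd : ℕ × List ℕ) : gN n m cd (n + 1) = 0 := by
  unfold gN; simp

lemma gN_step {n m : ℕ} (cd : ℕ × List ℕ) {i : ℕ} (hi : i ≤ n) :
    gN n m cd i = fN n m cd i + gN n m cd (i + 1) := by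
  unfold gN
  rw [Finset.sum_eq_sum_Ico_succ_bot (show i < n + 1 by omega)]

lemma tl_length (g : ℕ → ℕ) : ∀ c s, (tl g s c).length = c := by
  intro c
  induction c with
  | zero => intro s; rfl
  | succ c ih => intro s; simp [tl, ih]

lemma tl_getD (g : ℕ → ℕ) : ∀ c s t, t < c → (tl g s c).getD t 0 = g (s + t) := by
  intro c
  induction c with
  | zero => intro s t h; omega
  | succ c ih =>
    intro s t h
    cases t with
    | zero => simp [tl]
    | succ t =>
      simp only [tl, List.getD_cons_succ]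
      rw [ih (s + 1) t (by omega), show s + 1 + t = s + (t + 1) by ring]

lemma D_next {n m j i b : ℕ} (hi : i < n) (hb : m - 1 - j = b) :
    D n m j (i + 1) * ((i + 1) * (n - i + b)) = D n m j i * ((i + 1 + j) * (n - i)) := by
  unfold Pool.Agent.H931R3.Bal.D
  rw [hb]
  have h1 := Nat.choose_mul_succ_eq (i + j) j
  rw [show i + j + 1 - j = i + 1 by omega] at h1
  have h2 := Nat.choose_mul_succ_eq (n - (i + 1) + b) b
  rw [show n - (i + 1) + b + 1 - b = n - i by omega,
    show n - (i + 1) + b + 1 = n - i + b by omega] at h2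
  rw [show i + 1 + j = i + j + 1 by ring]
  calc (i + j + 1).choose j * (n - (i + 1) + b).choose b * ((i + 1) * (n - i + b)) =
      ((i + j + 1).choose j * (i + 1)) * ((n - (i + 1) + b).choose b * (n - i + b)) := by ring
    _ = ((i + j).choose j * (i + j + 1)) * ((n - i + b).choose b * (n - i)) := by rw [h1, h2]
    _ = _ := by ring

lemma dl_eq {n m j b : ℕ} (hb : m - 1 - j = b) : ∀ (c i v : ℕ), i + c = n → v = D n m j i →
    dl j b c i v = tl (D n m j) i (c + 1) := by
  intro c
  induction c with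
  | zero =>
    intro i v _ hv
    simp [dl, tl, hv]
  | succ c ih =>
    intro i v hi hv
    have h := D_next (n := n) (m := m) (j := j) (i := i) (by omega) hb
    rw [show n - i = c + 1 by omega] at h
    rw [tl, dl, ih (i + 1) _ (by omega), hv]
    rw [hv, ← h]
    exact Nat.mul_div_cancel _ (Nat.mul_pos (by omega) (by omega))

lemma suf_eq (f : ℕ → ℕ) : ∀ c s, suf (tl f s c) = tl (fun i => ∑ k ∈ Ico i (s + c), f k) s (c + 1) := by
  intro c
  induction c with
  | zero => intro s; simp [suf, tl]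
  | succ c ih =>
    intro s
    rw [tl, suf, ih (s + 1)]
    rw [tl, tl, tl]
    simp only
    rw [show s + 1 + c = s + (c + 1) by ring, Finset.sum_eq_sum_Ico_succ_bot (show s < s + (c + 1) by omega)]

lemma tl_congr {f g : ℕ → ℕ} : ∀ (c s : ℕ), (∀ i, s ≤ i → i < s + c → f i = g i) →
    tl f s c = tl g s c := by
  intro c
  induction c with
  | zero => intro s _; rfl
  | succ c ih =>
    intro s h
    rw [tl, tl, h s le_rfl (by omega), ih (s + 1) (fun i h1 h2 => h i (by omega) (by omega))]

lemma KL_eq {n m j : ℕ} (hj : j < m) : KL n m j = tl (Kf n m j) 0 (n + 2) := by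
  unfold KL
  rw [dl_eq (n := n) (m := m) rfl n 0 _ (by omega) (by
    rw [ch_eq]
    unfold Pool.Agent.H931R3.Bal.D
    simp), suf_eq]
  apply tl_congr
  intro i _ hi
  rw [Kf_eq_sum hj (n + 1 - i) i (by omega), zero_add]

lemma tl_zero (s c : ℕ) : tl (fun _ => 0) s c = List.replicate c 0 := by
  induction c generalizing s with
  | zero => rfl
  | succ c ih => rw [tl, ih, List.replicate_succ]

lemma zipWith_tl (a : ℕ) (f g : ℕ → ℕ) : ∀ c s,
    List.zipWith (fun x y => a * x + y) (tl f s c) (tl g s c) = tl (fun i => a * f i + g i) s c := by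
  intro c
  induction c with
  | zero => intro s; rfl
  | succ c ih => intro s; rw [tl, tl, tl, List.zipWith_cons_cons, ih]

lemma gl_eq (n m : ℕ) : ∀ (l : List ℕ) (s : ℕ), s + l.length ≤ m →
    gl n l ((rowsL n m).drop s) = tl (fun i => dotF l (fun u => Kf n m (s + u) i)) 0 (n + 2) := by
  intro l
  induction l with
  | nil =>
    intro s _
    simp only [gl, dotF]
    rw [tl_zero]
  | cons a l ih =>
    intro s hs
    simp only [List.length_cons] at hs
    have h1 : (rowsL n m).drop s = KL n m s :: (rowsL n m).drop (s + 1) := by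
      unfold rowsL
      rw [List.drop_eq_getElem_cons (by simp; omega)]
      simp
    rw [h1, gl, ih (s + 1) (by omega), KL_eq (by omega)]
    have h2 : (fun i => dotF l (fun u => Kf n m (s + 1 + u) i)) =
        fun i => dotF l (fun u => Kf n m (s + (u + 1)) i) := by
      funext i
      congr 1
      funext u
      rw [show s + 1 + u = s + (u + 1) by ring]
    rw [h2, zipWith_tl]
    split_ifs with h0
    · apply tl_congr
      intro i _ _
      simp [dotF, h0]
    · apply tl_congr
      intro i _ _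
      simp [dotF]

lemma gsl_eq {n m : ℕ} {cd : ℕ × List ℕ} (h : Valid m cd) :
    gsl n m cd = tl (gN n m cd) 0 (n + 2) := by
  unfold gsl
  rw [gl_eq n m cd.2 cd.1 h.1]
  apply tl_congr
  intro i _ hi
  rw [gN_eq h (by omega)]

/-- a successful check gives a pair of elements whose value lies in the window -/
lemma good_spec {n m : ℕ} {cds : List (ℕ × List ℕ)} (h : good n m cds = true)
    (hv : ∀ cd ∈ cds, Valid m cd) {w : List Blk} (hw : len w = n) : ∃ cd' ∈ cds, ∃ cd ∈ codes 0 w,
      2 * (441 * (n + m).choose m) ≤ 5 * dotF cd.2 (fun t => gN n m cd' (cd.1 + t + 1)) ∧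
      5 * dotF cd.2 (fun t => gN n m cd' (cd.1 + t + 1)) ≤ 3 * (441 * (n + m).choose m) := by
  unfold good at h
  rw [ch_eq] at h
  have e : cds.map (gsl n m) = LL (cds.map (gN n m)) 0 (n + 2) := by
    unfold LL
    rw [List.map_map]
    apply List.map_congr_left
    intro cd hcd
    exact gsl_eq (hv cd hcd)
  rw [e, Bool.not_eq_true'] at h
  subst hw
  obtain ⟨cd, hcd, g, hg, h1, h2⟩ := all_hit h
  rw [List.mem_map] at hg
  obtain ⟨cd', hcd', rfl⟩ := hg
  exact ⟨cd', hcd', cd, hcd, h1, h2⟩

/-- a successful check for one rank -/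
lemma okRow_spec {n m r : ℕ} (h : okRow n m r = true) {v : List Blk} (hv : len v = m) :
    ∃ cd' ∈ codes 0 v, good n m [cd'] = true := by
  unfold okRow at h
  rw [Bool.and_eq_true, Bool.and_eq_true, Bool.and_eq_true, decide_eq_true_eq,
    List.all_eq_true, List.all_eq_true] at h
  obtain ⟨⟨⟨h1, h2⟩, h3⟩, h4⟩ := h
  obtain ⟨b, s, a1, a2, a3, a4, a5⟩ := cover v 0 r (by omega) (by omega)
  cases b with
  | one =>
    simp only [Blk.sz] at a3
    have : s = r := by omega
    subst this
    exact ⟨_, a5 [21] (by simp [Blk.els]), h2⟩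
  | three =>
    simp only [Blk.sz] at a3 a4
    have := h3 (r - s) (List.mem_range.2 (by omega))
    rw [Bool.or_eq_true, Bool.or_eq_true, decide_eq_true_eq, decide_eq_true_eq,
      List.any_eq_true] at this
    rcases this with (h5 | h5) | ⟨l, hl, h5⟩
    · omega
    · omega
    · rw [show r - (r - s) = s by omega] at h5
      exact ⟨_, a5 l hl, h5⟩
  | seven =>
    simp only [Blk.sz] at a3 a4
    have := h4 (r - s) (List.mem_range.2 (by omega))
    rw [Bool.or_eq_true, Bool.or_eq_true, decide_eq_true_eq, decide_eq_true_eq,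
      List.any_eq_true] at this
    rcases this with (h5 | h5) | ⟨l, hl, h5⟩
    · omega
    · omega
    · rw [show r - (r - s) = s by omega] at h5
      exact ⟨_, a5 l hl, h5⟩

/-- a successful check for an exceptional pair of sizes -/
lemma okX_spec {n m : ℕ} (h : okX n m = true) {v : List Blk} (hv : len v = m) :
    ∃ cds : List (ℕ × List ℕ), (∀ cd ∈ cds, cd ∈ codes 0 v) ∧ good n m cds = true := by
  unfold okX at h
  rw [List.all_eq_true] at h
  have := h v (hv ▸ mem_wl v)
  rw [Bool.or_eq_true, List.any_eq_true] at this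
  rcases this with ⟨cd, hcd, h1⟩ | h1
  · exact ⟨[cd], fun c hc => by rw [List.mem_singleton] at hc; rw [hc]; exact hcd, h1⟩
  · exact ⟨_, fun c hc => hc, h1⟩

/-- the value of a pair of codes lies in the window -/
def Win (n m : ℕ) (cd cd' : ℕ × List ℕ) : Prop :=
  2 * (441 * (n + m).choose m) ≤ 5 * dotF cd.2 (fun t => gN n m cd' (cd.1 + t + 1)) ∧
      5 * dotF cd.2 (fun t => gN n m cd' (cd.1 + t + 1)) ≤ 3 * (441 * (n + m).choose m)

lemma okM_spec {n m : ℕ} (h : okM m = true) (hX : ∀ t ∈ tabX, okX t.1 t.2 = true) (hn : n < nm m)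
    (hmn : m ≤ n) (h2 : ¬ (n = 2 ∧ m = 1)) (h6 : ¬ (n = 6 ∧ m = 1)) {w v : List Blk}
    (hw : len w = n) (hv : len v = m) :
    ∃ cd ∈ codes 0 w, ∃ cd' ∈ codes 0 v, Win n m cd cd' := by
  unfold okM at h
  rw [List.all_eq_true] at h
  have := h n (List.mem_range.2 hn)
  rw [Bool.or_eq_true, Bool.or_eq_true, Bool.or_eq_true, Bool.or_eq_true, decide_eq_true_eq,
    decide_eq_true_eq, decide_eq_true_eq] at this
  rcases this with (((h3 | h3) | h3) | h3) | h3
  · omega
  · exact absurd h3 h2
  · exact absurd h3 h6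
  · rw [List.contains_iff_mem] at h3
    obtain ⟨cds, hc, hg⟩ := okX_spec (hX _ h3) hv
    obtain ⟨cd', hcd', cd, hcd, h4⟩ := good_spec hg (fun c h5 => by
      have := codes_valid v 0 c (hc c h5)
      rwa [zero_add, hv] at this) hw
    exact ⟨cd, hcd, cd', hc _ hcd', h4⟩
  · obtain ⟨cd', hcd', hg⟩ := okRow_spec h3 hv
    obtain ⟨cd'', hcd'', cd, hcd, h4⟩ := good_spec hg (fun c h5 => by
      rw [List.mem_singleton] at h5
      have := codes_valid v 0 _ hcd'
      rwa [zero_add, hv, ← h5] at this) hw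
    rw [List.mem_singleton] at hcd''
    subst hcd''
    exact ⟨cd, hcd, _, hcd', h4⟩

end Pool.Agent.Q66.SP
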