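import Mathlib
import Pool.Agent.Q66.SP.Sp3

/-!
# Kernel computations, second sizes from 1 to 12
-/

namespace Pool.Agent.Q66.SP

set_option maxRecDepth 100000 in
lemma check_m1 : okM 1 = true := by
  decide +kernel

set_option maxRecDepth 100000 in
lemma check_m2 : okM 2 = true := by
  decide +kernel

set_option maxRecDepth 100000 in
lemma check_m3 : okM 3 = true := by
  decide +kernel

set_option maxRecDepth 100000 in
lemma check_m4 : okM 4 = true := by
  decide +kernel

set_option maxRecDepth 100000 in
lemma check_m5 : okM 5 = true := by
  decide +kernel

set_option maxRecDepth 100000 in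
lemma check_m6 : okM 6 = true := by
  decide +kernel

set_option maxRecDepth 100000 in
lemma check_m7 : okM 7 = true := by
  decide +kernel

set_option maxRecDepth 100000 in
lemma check_m8 : okM 8 = true := by
  decide +kernel

set_option maxRecDepth 100000 in
lemma check_m9 : okM 9 = true := by
  decide +kernel

set_option maxRecDepth 100000 in
lemma check_m10 : okM 10 = true := by
  decide +kernel

set_option maxRecDepth 100000 in
lemma check_m11 : okM 11 = true := by
  decide +kernel

set_option maxRecDepth 100000 in
lemma check_m12 : okM 12 = true := by
  decide +kernel

end Pool.Agent.Q66.SP
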