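import Mathlib
import Pool.Agent.Q66.SP.Sp3

/-!
# Kernel computations, second sizes from 13 to 18
-/

namespace Pool.Agent.Q66.SP

set_option maxRecDepth 100000 in
lemma check_m13 : okM 13 = true := by
  decide +kernel

set_option maxRecDepth 100000 in
lemma check_m14 : okM 14 = true := by
  decide +kernel

set_option maxRecDepth 100000 in
lemma check_m15 : okM 15 = true := by
  decide +kernel

set_option maxRecDepth 100000 in
lemma check_m16 : okM 16 = true := by
  decide +kernel

set_option maxRecDepth 100000 in
lemma check_m17 : okM 17 = true := by
  decide +kernel

set_option maxRecDepth 100000 in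
lemma check_m18 : okM 18 = true := by
  decide +kernel

end Pool.Agent.Q66.SP
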