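import Mathlib
import Pool.Agent.Q66.SP.Sp3

/-!
# Kernel computations, second sizes from 19 to 24
-/

namespace Pool.Agent.Q66.SP

set_option maxRecDepth 100000 in
lemma check_m19 : okM 19 = true := by
  decide +kernel

set_option maxRecDepth 100000 in
lemma check_m20 : okM 20 = true := by
  decide +kernel

set_option maxRecDepth 100000 in
lemma check_m21 : okM 21 = true := by
  decide +kernel

set_option maxRecDepth 100000 in
lemma check_m22 : okM 22 = true := by
  decide +kernel

set_option maxRecDepth 100000 in
lemma check_m23 : okM 23 = true := by
  decide +kernel

set_option maxRecDepth 100000 in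
lemma check_m24 : okM 24 = true := by
  decide +kernel

end Pool.Agent.Q66.SP
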