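import Mathlib
import Pool.Agent.Q66.SP.Sp3

/-!
# Kernel computations, second sizes from 25 to 36
-/

namespace Pool.Agent.Q66.SP

set_option maxRecDepth 100000 in
lemma check_m25 : okM 25 = true := by
  decide +kernel

set_option maxRecDepth 100000 in
lemma check_m26 : okM 26 = true := by
  decide +kernel

set_option maxRecDepth 100000 in
lemma check_m27 : okM 27 = true := by
  decide +kernel

set_option maxRecDepth 100000 in
lemma check_m28 : okM 28 = true := by
  decide +kernel

set_option maxRecDepth 100000 in
lemma check_m29 : okM 29 = true := by
  decide +kernel

set_option maxRecDepth 100000 in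
lemma check_m30 : okM 30 = true := by
  decide +kernel

set_option maxRecDepth 100000 in
lemma check_m31 : okM 31 = true := by
  decide +kernel

set_option maxRecDepth 100000 in
lemma check_m32 : okM 32 = true := by
  decide +kernel

set_option maxRecDepth 100000 in
lemma check_m33 : okM 33 = true := by
  decide +kernel

set_option maxRecDepth 100000 in
lemma check_m34 : okM 34 = true := by
  decide +kernel

set_option maxRecDepth 100000 in
lemma check_m35 : okM 35 = true := by
  decide +kernel

set_option maxRecDepth 100000 in
lemma check_m36 : okM 36 = true := by
  decide +kernel

end Pool.Agent.Q66.SP
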