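import Mathlib
import Pool.Agent.Q66.SP.Sp3

/-!
# Kernel computations, larger exceptional sizes
-/

namespace Pool.Agent.Q66.SP

set_option maxRecDepth 100000 in
lemma check_x2 : ((tabX.filter (fun t => 8 < t.2)).all fun t => okX t.1 t.2) = true := by
  decide +kernel

end Pool.Agent.Q66.SP
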