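import Mathlib
import Pool.Agent.Q66.SP.Sp3

/-!
# The crossing lemma: small jumps
-/

open Finset

namespace Pool.Agent.Q66.SP

open Pool.Agent.H13R3.WB Pool.Agent.H931R3.Bal

lemma dot_one (g : ℕ → ℕ) (s : ℕ) : dotF [21] (fun t => g (s + t + 1)) = 21 * g (s + 1) := by
  simp [dotF]

lemma dot_t0 (g : ℕ → ℕ) (s : ℕ) : dotF [7, 7, 7] (fun t => g (s + t + 1)) =
    7 * g (s + 1) + 7 * g (s + 2) + 7 * g (s + 3) := by
  simp [dotF]; ring_nf

lemma dot_t1 (g : ℕ → ℕ) (s : ℕ) : dotF [14, 7, 0] (fun t => g (s + t + 1)) =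
    14 * g (s + 1) + 7 * g (s + 2) := by
  simp [dotF]

lemma dot_t2 (g : ℕ → ℕ) (s : ℕ) : dotF [0, 7, 14] (fun t => g (s + t + 1)) =
    7 * g (s + 2) + 14 * g (s + 3) := by
  simp [dotF]

lemma dot_s1 (g : ℕ → ℕ) (s : ℕ) : dotF [12, 7, 2, 0, 0, 0, 0] (fun t => g (s + t + 1)) =
    12 * g (s + 1) + 7 * g (s + 2) + 2 * g (s + 3) := by
  simp [dotF]; ring_nf

lemma dot_s2 (g : ℕ → ℕ) (s : ℕ) : dotF [0, 5, 10, 6, 0, 0, 0] (fun t => g (s + t + 1)) =
    5 * g (s + 2) + 10 * g (s + 3) + 6 * g (s + 4) := by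
  simp [dotF]; ring_nf

lemma dot_s3 (g : ℕ → ℕ) (s : ℕ) : dotF [6, 6, 6, 3, 0, 0, 0] (fun t => g (s + t + 1)) =
    6 * g (s + 1) + 6 * g (s + 2) + 6 * g (s + 3) + 3 * g (s + 4) := by
  simp [dotF]; ring_nf

lemma dot_s0 (g : ℕ → ℕ) (s : ℕ) : dotF [3, 3, 3, 3, 3, 3, 3] (fun t => g (s + t + 1)) =
    3 * g (s + 1) + 3 * g (s + 2) + 3 * g (s + 3) + 3 * g (s + 4) + 3 * g (s + 5) +
      3 * g (s + 6) + 3 * g (s + 7) := by
  simp [dotF]; ring_nf

lemma dot_s4 (g : ℕ → ℕ) (s : ℕ) : dotF [0, 0, 0, 6, 10, 5, 0] (fun t => g (s + t + 1)) =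
    6 * g (s + 4) + 10 * g (s + 5) + 5 * g (s + 6) := by
  simp [dotF]; ring_nf

lemma dot_s6 (g : ℕ → ℕ) (s : ℕ) : dotF [0, 0, 0, 3, 6, 6, 6] (fun t => g (s + t + 1)) =
    3 * g (s + 4) + 6 * g (s + 5) + 6 * g (s + 6) + 6 * g (s + 7) := by
  simp [dotF]; ring_nf

lemma dot_s5 (g : ℕ → ℕ) (s : ℕ) : dotF [0, 0, 0, 0, 2, 7, 12] (fun t => g (s + t + 1)) =
    2 * g (s + 5) + 7 * g (s + 6) + 12 * g (s + 7) := by
  simp [dotF]; ring_nf

/-- functions with small jumps -/
structure SJ (g : ℕ → ℕ) (T n : ℕ) : Prop where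
  zero : g 0 = T
  pos : 0 < T
  fin : g (n + 1) = 0
  mono : ∀ i ≤ n, g (i + 1) ≤ g i
  jump : ∀ i ≤ n, 215 * g i ≤ 215 * g (i + 1) + 21 * T

lemma SJ.mono' {g : ℕ → ℕ} {T n : ℕ} (h : SJ g T n) (i : ℕ) (hi : i ≤ n + 1) : g i ≤ g (i - 1) := by
  rcases Nat.eq_zero_or_pos i with h0 | h0
  · rw [h0]
  · have := h.mono (i - 1) (by omega)
    rwa [show i - 1 + 1 = i by omega] at this

lemma SJ.jump' {g : ℕ → ℕ} {T n : ℕ} (h : SJ g T n) (i : ℕ) (hi : i ≤ n + 1) :
    215 * g (i - 1) ≤ 215 * g i + 21 * T := by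
  rcases Nat.eq_zero_or_pos i with h0 | h0
  · rw [h0]; simp
  · have := h.jump (i - 1) (by omega)
    rwa [show i - 1 + 1 = i by omega] at this

/-- the crossing lemma -/
lemma cross_word {g : ℕ → ℕ} {T n : ℕ} (h : SJ g T n) : ∀ (w : List Blk) (s : ℕ), s + len w = n →
    63 * T < 5 * (2 * g (s - 2) + 7 * g (s - 1) + 12 * g s) →
    ∃ cd ∈ codes s w, 2 * (21 * T) ≤ 5 * dotF cd.2 (fun t => g (cd.1 + t + 1)) ∧
      5 * dotF cd.2 (fun t => g (cd.1 + t + 1)) ≤ 3 * (21 * T) := by
  intro w
  induction w with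
  | nil =>
    intro s hs hI
    exfalso
    simp only [len, add_zero] at hs
    subst hs
    have a1 := h.jump s le_rfl
    rw [h.fin] at a1
    have a2 := h.jump' s (by omega)
    have a3 := h.jump' (s - 1) (by omega)
    rw [show s - 1 - 1 = s - 2 by omega] at a3
    have := h.pos
    omega
  | cons b w ih =>
    intro s hs hI
    simp only [len] at hs
    have hsz := sz_pos b
    have m1 := h.mono' s (by omega)
    have m2 := h.mono' (s - 1) (by omega)
    have j1 := h.jump' s (by omega)
    have j2 := h.jump' (s - 1) (by omega)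
    rw [show s - 1 - 1 = s - 2 by omega] at j2 m2
    have key : ∀ l ∈ b.els, 2 * (21 * T) ≤ 5 * dotF l (fun t => g (s + t + 1)) →
        63 * T < 5 * dotF l (fun t => g (s + t + 1)) ∨
        ∃ cd ∈ codes s (b :: w), 2 * (21 * T) ≤ 5 * dotF cd.2 (fun t => g (cd.1 + t + 1)) ∧
      5 * dotF cd.2 (fun t => g (cd.1 + t + 1)) ≤ 3 * (21 * T) := by
      intro l hl h1
      rcases Nat.lt_or_ge (63 * T) (5 * dotF l (fun t => g (s + t + 1))) with h2 | h2
      · exact Or.inl h2
      · refine Or.inr ⟨(s, l), ?_, h1, ?_⟩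
        · simp only [codes, List.mem_append, List.mem_map]
          exact Or.inl ⟨l, hl, rfl⟩
        · show 5 * dotF l (fun t => g (s + t + 1)) ≤ _
          omega
    have next : 63 * T < 5 * (2 * g (s + b.sz - 2) + 7 * g (s + b.sz - 1) + 12 * g (s + b.sz)) →
        ∃ cd ∈ codes s (b :: w), 2 * (21 * T) ≤ 5 * dotF cd.2 (fun t => g (cd.1 + t + 1)) ∧
      5 * dotF cd.2 (fun t => g (cd.1 + t + 1)) ≤ 3 * (21 * T) := by
      intro h1
      obtain ⟨cd, hcd, h2⟩ := ih (s + b.sz) (by omega) h1
      refine ⟨cd, ?_, h2⟩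
      simp only [codes, List.mem_append]
      exact Or.inr hcd
    cases b with
    | one =>
      simp only [Blk.sz] at hs next
      have j3 := h.jump s (by omega)
      have m3 := h.mono s (by omega)
      rcases key [21] (by simp [Blk.els]) (by rw [dot_one]; omega) with h1 | h1
      · rw [dot_one] at h1
        apply next
        rw [show s + 1 - 2 = s - 1 by omega, show s + 1 - 1 = s by omega]
        omega
      · exact h1
    | three =>
      simp only [Blk.sz] at hs next
      have j3 := h.jump s (by omega)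
      have m3 := h.mono s (by omega)
      have j4 := h.jump (s + 1) (by omega)
      have m4 := h.mono (s + 1) (by omega)
      have j5 := h.jump (s + 2) (by omega)
      have m5 := h.mono (s + 2) (by omega)
      rw [show s + 1 + 1 = s + 2 by ring] at j4 m4
      rw [show s + 2 + 1 = s + 3 by ring] at j5 m5
      rcases key [14, 7, 0] (by simp [Blk.els]) (by rw [dot_t1]; omega) with h1 | h1
      · rw [dot_t1] at h1
        rcases key [7, 7, 7] (by simp [Blk.els]) (by rw [dot_t0]; omega) with h2 | h2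
        · rw [dot_t0] at h2
          rcases key [0, 7, 14] (by simp [Blk.els]) (by rw [dot_t2]; omega) with h3 | h3
          · rw [dot_t2] at h3
            apply next
            rw [show s + 3 - 2 = s + 1 by omega, show s + 3 - 1 = s + 2 by omega]
            omega
          · exact h3
        · exact h2
      · exact h1
    | seven =>
      simp only [Blk.sz] at hs next
      have j3 := h.jump s (by omega)
      have m3 := h.mono s (by omega)
      have j4 := h.jump (s + 1) (by omega)
      have m4 := h.mono (s + 1) (by omega)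
      have j5 := h.jump (s + 2) (by omega)
      have m5 := h.mono (s + 2) (by omega)
      have j6 := h.jump (s + 3) (by omega)
      have m6 := h.mono (s + 3) (by omega)
      have j7 := h.jump (s + 4) (by omega)
      have m7 := h.mono (s + 4) (by omega)
      have j8 := h.jump (s + 5) (by omega)
      have m8 := h.mono (s + 5) (by omega)
      have j9 := h.jump (s + 6) (by omega)
      have m9 := h.mono (s + 6) (by omega)
      rw [show s + 1 + 1 = s + 2 by ring] at j4 m4
      rw [show s + 2 + 1 = s + 3 by ring] at j5 m5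
      rw [show s + 3 + 1 = s + 4 by ring] at j6 m6
      rw [show s + 4 + 1 = s + 5 by ring] at j7 m7
      rw [show s + 5 + 1 = s + 6 by ring] at j8 m8
      rw [show s + 6 + 1 = s + 7 by ring] at j9 m9
      rcases key [12, 7, 2, 0, 0, 0, 0] (by simp [Blk.els])
        (by rw [dot_s1]; linarith) with h1 | h1
      · rw [dot_s1] at h1
        rcases key [6, 6, 6, 3, 0, 0, 0] (by simp [Blk.els])
          (by rw [dot_s3]; linarith) with h2 | h2
        · rw [dot_s3] at h2
          rcases key [0, 5, 10, 6, 0, 0, 0] (by simp [Blk.els])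
            (by rw [dot_s2]; linarith) with h3 | h3
          · rw [dot_s2] at h3
            rcases key [3, 3, 3, 3, 3, 3, 3] (by simp [Blk.els])
              (by rw [dot_s0]; linarith) with h4 | h4
            · rw [dot_s0] at h4
              rcases key [0, 0, 0, 6, 10, 5, 0] (by simp [Blk.els])
                (by rw [dot_s4]; linarith) with h5 | h5
              · rw [dot_s4] at h5
                rcases key [0, 0, 0, 3, 6, 6, 6] (by simp [Blk.els])
                  (by rw [dot_s6]; linarith) with h6 | h6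
                · rw [dot_s6] at h6
                  rcases key [0, 0, 0, 0, 2, 7, 12] (by simp [Blk.els])
                    (by rw [dot_s5]; linarith) with h7 | h7
                  · rw [dot_s5] at h7
                    apply next
                    rw [show s + 7 - 2 = s + 5 by omega, show s + 7 - 1 = s + 6 by omega]
                    exact h7
                  · exact h7
                · exact h6
              · exact h5
            · exact h4
          · exact h3
        · exact h2
      · exact h1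

end Pool.Agent.Q66.SP
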