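import Mathlib
import Pool.Agent.Q66.SP.Sp4

/-!
# Small jumps for large sizes
-/

open Finset

namespace Pool.Agent.Q66.SP

open Pool.Agent.H931R3.Bal

/-- sup norm at most `21/215` -/
def SNq (n m j : ℕ) : Prop := ∀ i ≤ n, 215 * D n m j i ≤ 21 * (n + m).choose m

lemma SNq_succ {n m j : ℕ} (hj : j < m) (h : SNq n m j) : SNq (n + 1) m j := by
  intro i hi
  obtain ⟨b, rfl⟩ : ∃ b, m = j + 1 + b := ⟨m - (j + 1), by omega⟩
  have hT : (n + 1 + (j + 1 + b)).choose (j + 1 + b) * (n + 1) =
      (n + (j + 1 + b)).choose (j + 1 + b) * (n + 1 + (j + 1 + b)) := by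
    have := Nat.choose_mul_succ_eq (n + (j + 1 + b)) (j + 1 + b)
    rw [show n + (j + 1 + b) + 1 = n + 1 + (j + 1 + b) by omega,
      show n + 1 + (j + 1 + b) - (j + 1 + b) = n + 1 by omega] at this
    exact this.symm
  -- the recursion
  have key : (n + 1) * D (n + 1) (j + 1 + b) j i ≤
      (if i ≤ n then D n (j + 1 + b) j i * (n - i + b + 1) else 0) +
      (if 1 ≤ i then D n (j + 1 + b) j (i - 1) * (i + j) else 0) := by
    unfold D
    rw [show j + 1 + b - 1 - j = b by omega]
    have A : i ≤ n → (n + 1 - i + b).choose b * (n + 1 - i) =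
        (n - i + b).choose b * (n - i + b + 1) := by
      intro h1
      have := Nat.choose_mul_succ_eq (n - i + b) b
      rw [show n - i + b + 1 - b = n + 1 - i by omega] at this
      rw [show n + 1 - i + b = n - i + b + 1 by omega]
      exact this.symm
    have B : 1 ≤ i → (i + j).choose j * i = (i - 1 + j).choose j * (i + j) := by
      intro h1
      have := Nat.choose_mul_succ_eq (i - 1 + j) j
      rw [show i - 1 + j + 1 - j = i by omega, show i - 1 + j + 1 = i + j by omega] at this
      exact this.symm
    have e3 : (n + 1) = (n + 1 - i) + i := by omega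
    have lhs : (n + 1) * ((i + j).choose j * (n + 1 - i + b).choose b) =
        (i + j).choose j * ((n + 1 - i + b).choose b * (n + 1 - i)) +
        ((i + j).choose j * i) * (n + 1 - i + b).choose b := by
      nth_rw 1 [e3]
      ring
    rw [lhs]
    apply Nat.add_le_add
    · split_ifs with h1
      · rw [A h1]
        exact le_of_eq (by ring)
      · have : n + 1 - i = 0 := by omega
        rw [this]
        simp
    · split_ifs with h1
      · rw [B h1]
        rw [show n - (i - 1) + b = n + 1 - i + b by omega]
        exact le_of_eq (by ring)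
      · have : i = 0 := by omega
        rw [this]
        simp
  set C := (n + (j + 1 + b)).choose (j + 1 + b) with hC
  have hb1 : 215 * (if i ≤ n then D n (j + 1 + b) j i * (n - i + b + 1) else 0) ≤
      21 * C * (n + 1 - i + b) := by
    split_ifs with h1
    · have := h i h1
      calc 215 * (D n (j + 1 + b) j i * (n - i + b + 1)) =
          (215 * D n (j + 1 + b) j i) * (n - i + b + 1) := by ring
        _ ≤ 21 * C * (n - i + b + 1) := Nat.mul_le_mul_right _ this
        _ = _ := by rw [show n - i + b + 1 = n + 1 - i + b by omega]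
    · simp
  have hb2 : 215 * (if 1 ≤ i then D n (j + 1 + b) j (i - 1) * (i + j) else 0) ≤
      21 * C * (i + j) := by
    split_ifs with h1
    · have := h (i - 1) (by omega)
      calc 215 * (D n (j + 1 + b) j (i - 1) * (i + j)) =
          (215 * D n (j + 1 + b) j (i - 1)) * (i + j) := by ring
        _ ≤ 21 * C * (i + j) := Nat.mul_le_mul_right _ this
    · simp
  have h3 : (n + 1) * (215 * D (n + 1) (j + 1 + b) j i) ≤
      (n + 1) * (21 * (n + 1 + (j + 1 + b)).choose (j + 1 + b)) := by
    calc (n + 1) * (215 * D (n + 1) (j + 1 + b) j i) =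
          215 * ((n + 1) * D (n + 1) (j + 1 + b) j i) := by ring
      _ ≤ 215 * ((if i ≤ n then D n (j + 1 + b) j i * (n - i + b + 1) else 0) +
          (if 1 ≤ i then D n (j + 1 + b) j (i - 1) * (i + j) else 0)) :=
          Nat.mul_le_mul_left _ key
      _ ≤ 21 * C * (n + 1 - i + b) + 21 * C * (i + j) := by
          rw [mul_add]; exact Nat.add_le_add hb1 hb2
      _ = 21 * C * (n + 1 + b + j) := by
          rw [← mul_add]; congr 1; omega
      _ ≤ 21 * C * (n + 1 + (j + 1 + b)) :=
          Nat.mul_le_mul_left _ (by omega)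
      _ = (n + 1) * (21 * (n + 1 + (j + 1 + b)).choose (j + 1 + b)) := by
          rw [mul_assoc, ← hT]; ring
  exact Nat.le_of_mul_le_mul_left h3 (by omega)

lemma SNq_mono {n n' m j : ℕ} (hj : j < m) (hn : n ≤ n') (h : SNq n m j) : SNq n' m j := by
  induction n', hn using Nat.le_induction with
  | base => exact h
  | succ k _ ih => exact SNq_succ hj ih

lemma SNq_diag {a : ℕ} (ha : 2 * a + 1 ≤ 37)
    (h0 : 215 * (2 * a).choose a * (37 - a).centralBinom ≤ 42 * (37).centralBinom) :
    ∀ N, 37 ≤ N → SNq N N a := by
  intro N hN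
  have h : 215 * (2 * a).choose a * (N - a).centralBinom ≤ 42 * N.centralBinom := by
    induction N, hN using Nat.le_induction with
    | base => exact h0
    | succ k hk ih =>
      have h1 := Nat.succ_mul_centralBinom_succ (k - a)
      have h2 := Nat.succ_mul_centralBinom_succ k
      obtain ⟨M, rfl⟩ : ∃ M, k = a + M := ⟨k - a, by omega⟩
      rw [show a + M - a = M by omega] at h1 ih
      rw [show a + M + 1 - a = M + 1 by omega]
      have h3 : (M + 1) * (a + M + 1) * (215 * (2 * a).choose a * (M + 1).centralBinom) ≤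
          (M + 1) * (a + M + 1) * (42 * (a + M + 1).centralBinom) := by
        calc (M + 1) * (a + M + 1) * (215 * (2 * a).choose a * (M + 1).centralBinom) =
            215 * (2 * a).choose a * (a + M + 1) * ((M + 1) * (M + 1).centralBinom) := by ring
          _ = (215 * (2 * a).choose a * M.centralBinom) * (2 * (2 * M + 1) * (a + M + 1)) := by
              rw [h1]; ring
          _ ≤ (42 * (a + M).centralBinom) * (2 * (2 * M + 1) * (a + M + 1)) :=
              Nat.mul_le_mul_right _ ih
          _ ≤ (42 * (a + M).centralBinom) * (2 * ((2 * (a + M) + 1) * (M + 1))) := by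
              apply Nat.mul_le_mul_left
              nlinarith
          _ = 42 * (M + 1) * (2 * (2 * (a + M) + 1) * (a + M).centralBinom) := by ring
          _ = _ := by rw [← h2]; ring
      exact Nat.le_of_mul_le_mul_left h3 (by positivity)
  intro i hi
  have h1 := D_mode (N := N) (a := a) (by omega) hi
  have h2 := D_mid (N := N) (a := a) (by omega)
  rw [show N + N = 2 * N by ring, ← Nat.centralBinom]
  have h3 : 2 * (215 * D N N a i) ≤ 2 * (21 * N.centralBinom) := by
    calc 2 * (215 * D N N a i) ≤ 2 * (215 * D N N a a) := by omega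
      _ = 215 * (2 * D N N a a) := by ring
      _ = 215 * (2 * a).choose a * (N - a).centralBinom := by rw [h2]; ring
      _ ≤ 42 * N.centralBinom := h
      _ = _ := by ring
  omega

/-- the numerical conditions for `N = 37` -/
lemma num37 : ∀ a < 18, 13 ≤ a →
    215 * ch (2 * a) a * ch (2 * (37 - a)) (37 - a) ≤ 42 * ch (2 * 37) 37 := by
  decide +kernel

/-- the ranks near `r` have small jumps: distance at most one, and at most two if `m ≥ 7` -/
def Nice (n m r : ℕ) : Prop := r < m ∧
  ∀ j < m, r ≤ j + 2 → j ≤ r + 2 → (m < 7 → r ≤ j + 1 ∧ j ≤ r + 1) → SNq n m j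

/-- fast check of `SNq` -/
def SNqb (n m j : ℕ) : Bool :=
  (List.range (n + 1)).all fun i => decide (215 * Df n m j i ≤ 21 * ch (n + m) m)

lemma SNq_of_SNqb {n m j : ℕ} (h : SNqb n m j = true) : SNq n m j := by
  intro i hi
  unfold SNqb at h
  rw [List.all_eq_true] at h
  have := h i (List.mem_range.2 (by omega))
  rw [decide_eq_true_eq, Df_eq, ch_eq] at this
  exact this

set_option maxRecDepth 100000 in
lemma checkN : ((List.range 37).all fun m => decide (m < 1) ||
    (List.range m).all fun j => decide (j + 2 < (m - 1) / 2) || decide ((m - 1) / 2 + 2 < j) ||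
      (decide (m < 7) && (decide (j + 1 < (m - 1) / 2) || decide ((m - 1) / 2 + 1 < j))) ||
      SNqb (nm m) m j) = true := by
  decide +kernel

lemma Nice_small {n m : ℕ} (h1 : 1 ≤ m) (h2 : m < 37) (hn : nm m ≤ n) :
    Nice n m ((m - 1) / 2) := by
  have h := checkN
  rw [List.all_eq_true] at h
  have h3 := h m (List.mem_range.2 h2)
  rw [Bool.or_eq_true, decide_eq_true_eq] at h3
  rcases h3 with h3 | h3
  · omega
  rw [List.all_eq_true] at h3
  refine ⟨by omega, fun j hj a1 a2 a3 => ?_⟩
  have h4 := h3 j (List.mem_range.2 hj)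
  rw [Bool.or_eq_true, Bool.or_eq_true, Bool.or_eq_true, Bool.and_eq_true, Bool.or_eq_true,
    decide_eq_true_eq, decide_eq_true_eq, decide_eq_true_eq, decide_eq_true_eq,
    decide_eq_true_eq] at h4
  rcases h4 with ((h4 | h4) | ⟨h4, h5⟩) | h4
  · omega
  · omega
  · have := a3 h4
    omega
  · exact SNq_mono hj hn (SNq_of_SNqb h4)

lemma Nice_large {n m : ℕ} (hm : 37 ≤ m) (hmn : m ≤ n) : Nice n m 15 := by
  refine ⟨by omega, fun j hj a1 a2 _ => ?_⟩
  have h := num37 j (by omega) (by omega)
  rw [ch_eq, ch_eq, ch_eq] at h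
  exact SNq_mono hj hmn (SNq_diag (by omega) (by
    rw [Nat.centralBinom, Nat.centralBinom]; exact h) m hm)

lemma dotF_bound (l : List ℕ) : ∀ (F : ℕ → ℕ) (B : ℕ),
    (∀ t, l.getD t 0 ≠ 0 → 215 * F t ≤ B) → 215 * dotF l F ≤ l.sum * B := by
  induction l with
  | nil => intro F B _; simp [dotF]
  | cons a l ih =>
    intro F B h
    have h1 := ih (fun t => F (t + 1)) B (fun t ht => h (t + 1) (by simpa using ht))
    have h2 : 215 * (a * F 0) ≤ a * B := by
      rcases Nat.eq_zero_or_pos a with h0 | h0
      · rw [h0]; simp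
      · have := h 0 (by simp; omega)
        calc 215 * (a * F 0) = a * (215 * F 0) := by ring
          _ ≤ a * B := Nat.mul_le_mul_left _ this
    simp only [dotF, List.sum_cons]
    rw [mul_add, add_mul]
    exact Nat.add_le_add h2 h1

/-- the tail sums of a code supported on ranks with small jumps -/
lemma SJ_of {n m : ℕ} {cd : ℕ × List ℕ} (hv : Valid m cd)
    (h : ∀ t, cd.2.getD t 0 ≠ 0 → SNq n m (cd.1 + t)) :
    SJ (gN n m cd) (21 * (n + m).choose m) n where
  zero := gN_zero hv
  pos := by
    have := Nat.choose_pos (show m ≤ n + m by omega)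
    omega
  fin := gN_end n m cd
  mono := fun i hi => by rw [gN_step cd hi]; omega
  jump := fun i hi => by
    rw [gN_step cd hi]
    have h1 : 215 * fN n m cd i ≤ cd.2.sum * (21 * (n + m).choose m) := by
      unfold fN
      apply dotF_bound
      intro t ht
      rw [Df_eq]
      exact h t ht i hi
    rw [hv.2] at h1
    omega

lemma exists_code {n m r : ℕ} (h : Nice n m r) {v : List Blk} (hv : len v = m) :
    ∃ cd' ∈ codes 0 v, SJ (gN n m cd') (21 * (n + m).choose m) n := by
  obtain ⟨h1, h2⟩ := h
  obtain ⟨b, s, a1, a2, a3, a4, a5⟩ := cover v 0 r (by omega) (by omega)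
  have key : ∀ l ∈ b.els, (∀ t, l.getD t 0 ≠ 0 → SNq n m (s + t)) →
      ∃ cd' ∈ codes 0 v, SJ (gN n m cd') (21 * (n + m).choose m) n := by
    intro l hl h3
    have hc := a5 l hl
    have hval := codes_valid v 0 _ hc
    rw [zero_add, hv] at hval
    exact ⟨_, hc, SJ_of hval h3⟩
  cases b with
  | one =>
    simp only [Blk.sz] at a3 a4
    apply key [21] (by simp [Blk.els])
    intro t ht
    match t, ht with
    | 0, _ => exact h2 _ (by omega) (by omega) (by omega) (by omega)
    | t + 1, ht => simp at ht
  | three =>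
    simp only [Blk.sz] at a3 a4
    have hd : r = s ∨ r = s + 1 ∨ r = s + 2 := by omega
    rcases hd with hd | hd
    · apply key [14, 7, 0] (by simp [Blk.els])
      intro t ht
      match t, ht with
      | 0, _ => exact h2 _ (by omega) (by omega) (by omega) (by omega)
      | 1, _ => exact h2 _ (by omega) (by omega) (by omega) (by omega)
      | 2, ht => simp at ht
      | t + 3, ht => simp at ht
    · apply key [0, 7, 14] (by simp [Blk.els])
      intro t ht
      match t, ht with
      | 0, ht => simp at ht
      | 1, _ => exact h2 _ (by omega) (by omega) (by omega) (by omega)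
      | 2, _ => exact h2 _ (by omega) (by omega) (by omega) (by omega)
      | t + 3, ht => simp at ht
  | seven =>
    simp only [Blk.sz] at a3 a4
    have hd : r ≤ s + 2 ∨ r = s + 3 ∨ s + 4 ≤ r := by omega
    rcases hd with hd | hd | hd
    · apply key [12, 7, 2, 0, 0, 0, 0] (by simp [Blk.els])
      intro t ht
      match t, ht with
      | 0, _ => exact h2 _ (by omega) (by omega) (by omega) (by omega)
      | 1, _ => exact h2 _ (by omega) (by omega) (by omega) (by omega)
      | 2, _ => exact h2 _ (by omega) (by omega) (by omega) (by omega)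
      | 3, ht => simp at ht
      | 4, ht => simp at ht
      | 5, ht => simp at ht
      | 6, ht => simp at ht
      | t + 7, ht => simp at ht
    · apply key [0, 5, 10, 6, 0, 0, 0] (by simp [Blk.els])
      intro t ht
      match t, ht with
      | 0, ht => simp at ht
      | 1, _ => exact h2 _ (by omega) (by omega) (by omega) (by omega)
      | 2, _ => exact h2 _ (by omega) (by omega) (by omega) (by omega)
      | 3, _ => exact h2 _ (by omega) (by omega) (by omega) (by omega)
      | 4, ht => simp at ht
      | 5, ht => simp at ht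
      | 6, ht => simp at ht
      | t + 7, ht => simp at ht
    · apply key [0, 0, 0, 0, 2, 7, 12] (by simp [Blk.els])
      intro t ht
      match t, ht with
      | 0, ht => simp at ht
      | 1, ht => simp at ht
      | 2, ht => simp at ht
      | 3, ht => simp at ht
      | 4, _ => exact h2 _ (by omega) (by omega) (by omega) (by omega)
      | 5, _ => exact h2 _ (by omega) (by omega) (by omega) (by omega)
      | 6, _ => exact h2 _ (by omega) (by omega) (by omega) (by omega)
      | t + 7, ht => simp at ht

/-- large sizes -/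
lemma large {n m : ℕ} (h1 : 1 ≤ m) (hmn : m ≤ n) (hn : nm m ≤ n) {w v : List Blk}
    (hw : len w = n) (hv : len v = m) : ∃ cd ∈ codes 0 w, ∃ cd' ∈ codes 0 v, Win n m cd cd' := by
  have h2 : ∃ r, Nice n m r := by
    rcases Nat.lt_or_ge m 37 with h | h
    · exact ⟨_, Nice_small h1 h hn⟩
    · exact ⟨15, Nice_large h hmn⟩
  obtain ⟨r, hr⟩ := h2
  obtain ⟨cd', hcd', hS⟩ := exists_code hr hv
  obtain ⟨cd, hcd, h3, h4⟩ := cross_word hS w 0 (by omega) (by
    simp only [Nat.zero_sub]
    rw [hS.zero]
    have := hS.pos
    omega)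
  refine ⟨cd, hcd, cd', hcd', ?_, ?_⟩
  · omega
  · omega

end Pool.Agent.Q66.SP
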