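import Mathlib
import Pool.Agent.Q66.SP.Sp5
import Pool.Agent.Q66.SP.Sp3a
import Pool.Agent.Q66.SP.Sp3b
import Pool.Agent.Q66.SP.Sp3c
import Pool.Agent.Q66.SP.Sp3d
import Pool.Agent.Q66.SP.Sp3x
import Pool.Agent.Q66.SP.Sp3y

/-!
# The gap at `2/5` for disjoint sums
-/

open Finset

namespace Pool.Agent.Q66.SP

open Pool.Agent.H13R3.WB Pool.Agent.H931R3.Bal

lemma all_X : ∀ t ∈ tabX, okX t.1 t.2 = true := by
  intro t ht
  rcases Nat.lt_or_ge 8 t.2 with h | h
  · exact List.all_eq_true.1 check_x2 t (List.mem_filter.2 ⟨ht, by simpa using h⟩)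
  · exact List.all_eq_true.1 check_x1 t (List.mem_filter.2 ⟨ht, by simpa using h⟩)

lemma all_M {m : ℕ} (h1 : 1 ≤ m) (h2 : m < 37) : okM m = true := by
  interval_cases m
  · exact check_m1
  · exact check_m2
  · exact check_m3
  · exact check_m4
  · exact check_m5
  · exact check_m6
  · exact check_m7
  · exact check_m8
  · exact check_m9
  · exact check_m10
  · exact check_m11
  · exact check_m12
  · exact check_m13
  · exact check_m14
  · exact check_m15
  · exact check_m16
  · exact check_m17
  · exact check_m18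
  · exact check_m19
  · exact check_m20
  · exact check_m21
  · exact check_m22
  · exact check_m23
  · exact check_m24
  · exact check_m25
  · exact check_m26
  · exact check_m27
  · exact check_m28
  · exact check_m29
  · exact check_m30
  · exact check_m31
  · exact check_m32
  · exact check_m33
  · exact check_m34
  · exact check_m35
  · exact check_m36

/-- the list of the tail sums from a given rank on -/
lemma tl_drop (g : ℕ → ℕ) : ∀ (k s c : ℕ), k ≤ c → (tl g s c).drop k = tl g (s + k) (c - k) := by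
  intro k
  induction k with
  | zero => intro s c _; simp
  | succ k ih =>
    intro s c hk
    obtain ⟨c, rfl⟩ : ∃ c', c = c' + 1 := ⟨c - 1, by omega⟩
    simp only [tl, List.drop_succ_cons]
    rw [ih (s + 1) c (by omega)]
    congr 1
    · ring
    · omega

/-- the check for the pair of sizes `(6, 1)` -/
def okS (w : List Blk) : Bool := decide (w = [Blk.three, Blk.three]) ||
  (codes 0 w).any fun cd => inWin (441 * ch 7 1) (dotN cd.2 ((gsl 6 1 (0, [21])).drop (cd.1 + 1)))

lemma check_S : ((wl 6).all okS) = true := by decide +kernel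

lemma six_one {w v : List Blk} (hw : len w = 6) (hv : len v = 1) :
    (w = [Blk.three, Blk.three] ∧ v = [Blk.one]) ∨
      ∃ cd ∈ codes 0 w, ∃ cd' ∈ codes 0 v, Win 6 1 cd cd' := by
  have hv1 : v = [Blk.one] := by
    have h1 := mem_wl v
    rw [hv] at h1
    have h2 : wl 1 = [[Blk.one]] := by decide +kernel
    rw [h2, List.mem_singleton] at h1
    exact h1
  have h := check_S
  rw [List.all_eq_true] at h
  have h1 := h w (hw ▸ mem_wl w)
  unfold okS at h1
  rw [Bool.or_eq_true, decide_eq_true_eq, List.any_eq_true] at h1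
  rcases h1 with h1 | ⟨cd, hcd, h1⟩
  · exact Or.inl ⟨h1, hv1⟩
  · right
    have hval := codes_valid w 0 _ hcd
    rw [zero_add, hw] at hval
    have h3 := hval.1
    refine ⟨cd, hcd, (0, [21]), by rw [hv1]; simp [codes, Blk.els], ?_⟩
    unfold inWin at h1
    rw [Bool.and_eq_true, decide_eq_true_eq, decide_eq_true_eq] at h1
    rcases Nat.eq_zero_or_pos cd.2.length with h0 | h0
    · have h4 := hval.2
      rw [List.length_eq_zero_iff.1 h0] at h4
      simp at h4
    rw [gsl_eq (show Valid 1 (0, [21]) from ⟨le_rfl, rfl⟩), tl_drop _ _ _ _ (by omega),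
      dotN_tl _ _ _ _ (by omega), ch_eq] at h1
    have e : (fun t => gN 6 1 (0, [21]) (0 + (cd.1 + 1) + t)) =
        fun t => gN 6 1 (0, [21]) (cd.1 + t + 1) := by
      funext t
      congr 1
      ring
    rw [e] at h1
    exact h1

lemma dotR_congr : ∀ (l : List ℕ) {φ ψ : ℕ → ℝ}, (∀ t < l.length, φ t = ψ t) →
    dotR l φ = dotR l ψ := by
  intro l
  induction l with
  | nil => intro φ ψ _; rfl
  | cons a l ih =>
    intro φ ψ h
    simp only [dotR]
    rw [h 0 (by simp), ih (fun t ht => h (t + 1) (by simpa using ht))]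

lemma dotR_div (l : List ℕ) : ∀ (g : ℕ → ℕ) (C : ℝ),
    dotR l (fun t => (g t : ℝ) / C) = (dotF l g : ℝ) / C := by
  induction l with
  | nil => intro g C; simp [dotR, dotF]
  | cons a l ih =>
    intro g C
    simp only [dotR, dotF]
    rw [ih (fun i => g (i + 1)) C]
    push_cast
    ring

variable {P Q : Type} [Fintype P] [Fintype Q] [PartialOrder P] [PartialOrder Q]

/-- the probability for a pair of codes -/
lemma prob_codes {w v : List Blk} (hn : Fintype.card P = len w) (hm : Fintype.card Q = len v)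
    {cd cd' : ℕ × List ℕ} {x : P} {y : Q} (hx : ∀ φ : ℕ → ℝ, avg P (len w) x φ = evc cd φ)
    (hy : ∀ φ : ℕ → ℝ, avg Q (len v) y φ = evc cd' φ) (hv' : Valid (len v) cd') :
    prob (P ⊕ Q) (Sum.inl x) (Sum.inr y) =
      (dotF cd.2 (fun t => gN (len w) (len v) cd' (cd.1 + t + 1)) : ℝ) /
        (441 * (len w + len v).choose (len v)) := by
  have hcard : Fintype.card (P ⊕ Q) = len w + len v := by
    rw [Fintype.card_sum, hn, hm]
  have hC : (0 : ℝ) < ((len w + len v).choose (len v) : ℕ) := by
    exact_mod_cast Nat.choose_pos (show len v ≤ len w + len v by omega)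
  rw [prob_eq hcard, pr_disj_cross hn hm]
  have h1 : ∀ i < len w, avg Q (len v) y (fun j => FF (len w) (len v) i j) =
      (gN (len w) (len v) cd' (i + 1) : ℝ) / (21 * (len w + len v).choose (len v)) := by
    intro i hi
    rw [avg_congr (ψ := fun j => (Kf (len w) (len v) j (i + 1) : ℝ) /
      (len w + len v).choose (len v)) (fun j hj => FF_eq_Kf hi hj), hy]
    unfold evc
    rw [dotR_div, gN_eq hv' (by omega)]
    field_simp
  rw [avg_congr h1, hx]
  unfold evc
  rw [dotR_div]
  field_simp
  norm_num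

omit [Fintype P] [PartialOrder P] [Fintype Q] [PartialOrder Q] in
lemma le_balance2 {P : Type} [Fintype P] [PartialOrder P] {x y : P} (hxy : x ≠ y)
    (h1 : 2 / 5 ≤ prob P x y) (h2 : prob P x y ≤ 3 / 5) : 2 / 5 ≤ balance P := by
  have h3 := prob_add hxy
  exact (le_min h1 (by linarith)).trans (le_balance x y)

lemma InD.inD7 {P : Type} [PartialOrder P] (h : InD P) : InD7 P := by
  induction h with
  | one P e => exact InD7.one P e
  | three P e => exact InD7.three P e
  | sum P Q R _ _ e i1 i2 => exact InD7.sum P Q R i1 i2 e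

/-- disjoint sum of two posets of the class -/
lemma cross7 (hP : InD7 P) (hQ : InD7 Q) (hmn : Fintype.card Q ≤ Fintype.card P) :
    InD7 (P ⊕ Q) ∨ 2 / 5 ≤ balance (P ⊕ Q) := by
  obtain ⟨w, hw⟩ := hP.rep
  obtain ⟨v, hv⟩ := hQ.rep
  obtain ⟨w0, w1, -, w2⟩ := hw.data
  obtain ⟨v0, v1, -, v2⟩ := hv.data
  rw [Nat.card_eq_fintype_card] at w1 v1
  have hm1 : 1 ≤ len v := by
    rcases Nat.eq_zero_or_pos (len v) with h0 | h0
    · exact absurd (len_eq_zero h0) v0
    · exact h0
  have fin : (∃ cd ∈ codes 0 w, ∃ cd' ∈ codes 0 v, Win (len w) (len v) cd cd') →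
      2 / 5 ≤ balance (P ⊕ Q) := by
    rintro ⟨cd, hcd, cd', hcd', h1, h2⟩
    obtain ⟨x, hx⟩ := w2 0 cd hcd
    obtain ⟨y, hy⟩ := v2 0 cd' hcd'
    have hval := codes_valid v 0 _ hcd'
    rw [zero_add] at hval
    have h3 := prob_codes w1 v1 (cd := cd) (cd' := cd') (x := x) (y := y)
      (fun φ => by simpa using hx φ) (fun φ => by simpa using hy φ) hval
    have hC : (0 : ℝ) < 441 * (((len w + len v).choose (len v) : ℕ) : ℝ) := by
      have : (0 : ℝ) < ((len w + len v).choose (len v) : ℕ) := by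
        exact_mod_cast Nat.choose_pos (show len v ≤ len w + len v by omega)
      positivity
    have h1' : (2 : ℝ) * (441 * ((len w + len v).choose (len v) : ℕ)) ≤
        5 * (dotF cd.2 (fun t => gN (len w) (len v) cd' (cd.1 + t + 1)) : ℕ) := by
      exact_mod_cast h1
    have h2' : (5 : ℝ) * (dotF cd.2 (fun t => gN (len w) (len v) cd' (cd.1 + t + 1)) : ℕ) ≤
        3 * (441 * ((len w + len v).choose (len v) : ℕ)) := by
      exact_mod_cast h2
    apply le_balance2 (x := Sum.inl x) (y := Sum.inr y) (by simp)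
    · rw [h3, le_div_iff₀ hC]
      linarith
    · rw [h3, div_le_iff₀ hC]
      linarith
  have hle : len v ≤ len w := by omega
  by_cases h21 : len w = 2 ∧ len v = 1
  · left
    have hw' : w = [Blk.one, Blk.one] := by
      have h1 := mem_wl w
      rw [h21.1] at h1
      have h2 : wl 2 = [[Blk.one, Blk.one]] := by decide +kernel
      rw [h2, List.mem_singleton] at h1
      exact h1
    obtain ⟨A, B, _, _, hA, hB, hAB⟩ := hw.of_pair hw'
    have hPD : InD P := InD.sum A B P (InD.one A (hA.of_one rfl)) (InD.one B (hB.of_one rfl)) hAB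
    exact InD.inD7 (InD_sum_of_card hPD (by omega) (by omega))
  by_cases h61 : len w = 6 ∧ len v = 1
  · rcases six_one h61.1 h61.2 with ⟨hw', hv'⟩ | h
    · left
      obtain ⟨A, B, _, _, hA, hB, hAB⟩ := hw.of_pair hw'
      obtain ⟨eA⟩ := hA.of_three rfl
      obtain ⟨eB⟩ := hB.of_three rfl
      obtain ⟨eQ⟩ := hv.of_one hv'
      obtain ⟨e⟩ := hAB
      exact InD7.seven _ ⟨OrderIso.sumCongr (e.trans (OrderIso.sumLexCongr eA eB)) eQ⟩
    · right
      apply fin
      rw [h61.1, h61.2]
      exact h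
  right
  apply fin
  rcases Nat.lt_or_ge (len w) (nm (len v)) with h | h
  · have h37 : len v < 37 := by
      by_contra hc
      have : nm (len v) = 37 := by
        unfold nm
        rw [List.getD_eq_default]
        simp
        omega
      omega
    exact okM_spec (all_M hm1 h37) all_X h hle h21 h61 rfl rfl
  · exact large hm1 hle h rfl rfl

/-- disjoint sum of two posets of the class -/
theorem cross_sum7 (hP : InD7 P) (hQ : InD7 Q) : InD7 (P ⊕ Q) ∨ 2 / 5 ≤ balance (P ⊕ Q) := by
  rcases le_total (Fintype.card Q) (Fintype.card P) with h | h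
  · exact cross7 hP hQ h
  · have hne : Nonempty (Q ⊕ P) := by
      have := InD7.nonempty hP
      infer_instance
    rcases cross7 hQ hP h with h1 | h1
    · exact Or.inl (InD7.iso h1 (OrderIso.sumComm Q P))
    · exact Or.inr (h1.trans (balance_iso (OrderIso.sumComm Q P)))

theorem gap_sum7 [Nonempty P] [Nonempty Q] (hP : InD7 P ∨ 2 / 5 ≤ balance P)
    (hQ : InD7 Q ∨ 2 / 5 ≤ balance Q) : InD7 (P ⊕ Q) ∨ 2 / 5 ≤ balance (P ⊕ Q) := by
  rcases hP with hP | hP
  · rcases hQ with hQ | hQ
    · exact cross_sum7 hP hQ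
    · exact Or.inr (hQ.trans balance_sum_right)
  · exact Or.inr (hP.trans balance_sum_left)

theorem gap_lex7 [Nonempty P] [Nonempty Q] (hP : InD7 P ∨ 2 / 5 ≤ balance P)
    (hQ : InD7 Q ∨ 2 / 5 ≤ balance Q) : InD7 (P ⊕ₗ Q) ∨ 2 / 5 ≤ balance (P ⊕ₗ Q) := by
  rcases hP with hP | hP
  · rcases hQ with hQ | hQ
    · exact Or.inl (InD7.sum P Q _ hP hQ ⟨OrderIso.refl _⟩)
    · exact Or.inr (hQ.trans balance_lex_right)
  · exact Or.inr (hP.trans balance_lex_left)

/-- the gap for series-parallel posets -/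
theorem sp_gap7 {R : Type} [PartialOrder R] (h : SeriesParallel R) :
    ∀ [Fintype R], Nonempty R ∧ (InD7 R ∨ 2 / 5 ≤ balance R) := by
  induction h with
  | one P e =>
    intro _
    obtain ⟨e⟩ := e
    exact ⟨⟨e.symm 0⟩, Or.inl (InD7.one P ⟨e⟩)⟩
  | disj P Q R _ _ e ihP ihQ =>
    intro hR
    obtain ⟨e⟩ := e
    have fP : Finite P := Finite.of_injective (fun x : P => e.symm (Sum.inl x))
      (fun a b h => Sum.inl_injective (e.symm.injective h))
    have fQ : Finite Q := Finite.of_injective (fun x : Q => e.symm (Sum.inr x))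
      (fun a b h => Sum.inr_injective (e.symm.injective h))
    have := Fintype.ofFinite P
    have := Fintype.ofFinite Q
    obtain ⟨n1, h1⟩ := ihP
    obtain ⟨n2, h2⟩ := ihQ
    have h3 := gap_sum7 h1 h2
    refine ⟨⟨e.symm (Sum.inl n1.some)⟩, ?_⟩
    rcases h3 with h3 | h3
    · exact Or.inl (InD7.iso h3 e.symm)
    · exact Or.inr (h3.trans (balance_iso e.symm))
  | direct P Q R _ _ e ihP ihQ =>
    intro hR
    obtain ⟨e⟩ := e
    have fP : Finite P := Finite.of_injective (fun x : P => e.symm (toLex (Sum.inl x)))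
      (fun a b h => Sum.inl_injective (toLex.injective (e.symm.injective h)))
    have fQ : Finite Q := Finite.of_injective (fun x : Q => e.symm (toLex (Sum.inr x)))
      (fun a b h => Sum.inr_injective (toLex.injective (e.symm.injective h)))
    have := Fintype.ofFinite P
    have := Fintype.ofFinite Q
    obtain ⟨n1, h1⟩ := ihP
    obtain ⟨n2, h2⟩ := ihQ
    have h3 := gap_lex7 h1 h2
    have : Nonempty (P ⊕ₗ Q) := ⟨toLex (Sum.inl n1.some)⟩
    refine ⟨⟨e.symm (toLex (Sum.inl n1.some))⟩, ?_⟩
    rcases h3 with h3 | h3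
    · exact Or.inl (InD7.iso h3 e.symm)
    · exact Or.inr (h3.trans (balance_iso e.symm))

end Pool.Agent.Q66.SP
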