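import Mathlib
import Pool.Agent.Q66.SP.Sp6

/-!
# Values, widths, and the reduction to irreducible posets
-/

open Finset

namespace Pool.Agent.Q66.SP

open Pool.Agent.H13R3.WB Pool.Agent.H931R3.Bal

/-! ### Upper bounds -/

section

variable {P Q : Type} [Fintype P] [Fintype Q] [PartialOrder P] [PartialOrder Q]

lemma balance_lex_le [Nonempty P] [Nonempty Q] :
    balance (P ⊕ₗ Q) ≤ max (balance P) (balance Q) := by
  have : Nonempty ((P ⊕ₗ Q) × (P ⊕ₗ Q)) := ⟨(toLex (Sum.inl (Classical.arbitrary P)),
    toLex (Sum.inl (Classical.arbitrary P)))⟩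
  have h0 : (0 : ℝ) ≤ max (balance P) (balance Q) := le_max_of_le_left balance_nonneg
  have hc : Fintype.card (P ⊕ₗ Q) = Fintype.card P + Fintype.card Q := card_lexS
  unfold balance
  apply ciSup_le
  rintro ⟨p, q⟩
  simp only
  rw [prob_eq hc, prob_eq hc]
  change _ ≤ max (balance P) (balance Q)
  rcases p with a | a <;> rcases q with b | b
  · have h1 := pr_lex_inl (P := P) (Q := Q) rfl rfl a b
    have h2 := pr_lex_inl (P := P) (Q := Q) rfl rfl b a
    have h3 := le_balance a b
    rw [prob_eq rfl, prob_eq rfl, ← h1, ← h2] at h3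
    exact le_max_of_le_left h3
  · refine (min_le_right _ _).trans ?_
    have : pr (P ⊕ₗ Q) (Fintype.card P + Fintype.card Q) (toLex (Sum.inr b)) (toLex (Sum.inl a)) = 0 :=
      pr_zero_of_lt (Sum.Lex.inl_lt_inr a b)
    calc _ = (0 : ℝ) := this
      _ ≤ _ := h0
  · refine (min_le_left _ _).trans ?_
    have : pr (P ⊕ₗ Q) (Fintype.card P + Fintype.card Q) (toLex (Sum.inr a)) (toLex (Sum.inl b)) = 0 :=
      pr_zero_of_lt (Sum.Lex.inl_lt_inr b a)
    calc _ = (0 : ℝ) := this
      _ ≤ _ := h0
  · have h1 := pr_lex_inr (P := P) (Q := Q) rfl rfl a b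
    have h2 := pr_lex_inr (P := P) (Q := Q) rfl rfl b a
    have h3 := le_balance a b
    rw [prob_eq rfl, prob_eq rfl, ← h1, ← h2] at h3
    exact le_max_of_le_right h3

end

/-- classes of posets closed under direct sums with bounded balance -/
lemma le_of_sum {c : ℝ} {P Q R : Type} [PartialOrder P] [PartialOrder Q] [PartialOrder R]
    [Fintype R] (nP : Nonempty P) (nQ : Nonempty Q)
    (hP : ∀ [Fintype P], balance P ≤ c) (hQ : ∀ [Fintype Q], balance Q ≤ c)
    (e : R ≃o (P ⊕ₗ Q)) : balance R ≤ c := by
  have fP : Finite P := Finite.of_injective (fun x : P => e.symm (toLex (Sum.inl x)))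
    (fun a b h => Sum.inl_injective (toLex.injective (e.symm.injective h)))
  have fQ : Finite Q := Finite.of_injective (fun x : Q => e.symm (toLex (Sum.inr x)))
    (fun a b h => Sum.inr_injective (toLex.injective (e.symm.injective h)))
  have := Fintype.ofFinite P
  have := Fintype.ofFinite Q
  have nR : Nonempty R := ⟨e.symm (toLex (Sum.inl nP.some))⟩
  exact (balance_iso e).trans (balance_lex_le.trans (max_le hP hQ))

lemma InD_le {P : Type} [PartialOrder P] (h : InD P) : ∀ [Fintype P], balance P ≤ 1 / 3 := by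
  induction h with
  | one P e =>
    intro _
    obtain ⟨e⟩ := e
    have : Nonempty P := ⟨e.symm 0⟩
    rw [balance_chain (fun x y => Or.inl (e.le_iff_le.mp (by
      rw [Subsingleton.elim (e x) (e y)])))]
    norm_num
  | three P e =>
    intro _
    obtain ⟨e⟩ := e
    have : Nonempty P := ⟨e.symm (Sum.inr 0)⟩
    exact (balance_iso e).trans balance_EE_le
  | sum P Q R hP hQ e i1 i2 =>
    intro _
    obtain ⟨e⟩ := e
    exact le_of_sum (InD.nonempty hP) (InD.nonempty hQ) i1 i2 e

lemma InD7_le {P : Type} [PartialOrder P] (h : InD7 P) : ∀ [Fintype P], balance P ≤ 8 / 21 := by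
  induction h with
  | one P e =>
    intro _
    exact (InD_le (InD.one P e)).trans (by norm_num)
  | three P e =>
    intro _
    exact (InD_le (InD.three P e)).trans (by norm_num)
  | seven P e =>
    intro _
    obtain ⟨e⟩ := e
    have : Nonempty P := ⟨e.symm (Sum.inr 0)⟩
    exact (balance_iso e).trans balance_X7
  | sum P Q R hP hQ e i1 i2 =>
    intro _
    obtain ⟨e⟩ := e
    exact le_of_sum hP.nonempty hQ.nonempty i1 i2 e

lemma sp_iso {P R : Type} [PartialOrder P] [PartialOrder R] (h : SeriesParallel P) (e : P ≃o R) :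
    SeriesParallel R := by
  cases h with
  | one _ e1 => exact SeriesParallel.one R (e1.map fun e1 => e.symm.trans e1)
  | disj A B _ hA hB e1 =>
    exact SeriesParallel.disj A B R hA hB (e1.map fun e1 => e.symm.trans e1)
  | direct A B _ hA hB e1 =>
    exact SeriesParallel.direct A B R hA hB (e1.map fun e1 => e.symm.trans e1)

lemma InD7.sp {P : Type} [PartialOrder P] (h : InD7 P) : SeriesParallel P := by
  induction h with
  | one P e => exact SeriesParallel.one P e
  | three P e =>
    obtain ⟨e⟩ := e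
    exact sp_iso sp_EE e.symm
  | seven P e =>
    obtain ⟨e⟩ := e
    exact sp_iso sp_sharp.1 e.symm
  | sum P Q R _ _ e i1 i2 => exact SeriesParallel.direct P Q R i1 i2 e

/-- the classification -/
theorem iff_lt {P : Type} [Fintype P] [PartialOrder P] (h : SeriesParallel P) :
    InD7 P ↔ balance P < 2 / 5 := by
  constructor
  · intro h1
    exact (InD7_le h1).trans_lt (by norm_num)
  · intro h1
    rcases (sp_gap7 h).2 with h2 | h2
    · exact h2
    · exact absurd h1 (not_lt.2 h2)

/-- the values -/
theorem values {P : Type} [Fintype P] [PartialOrder P] (h : SeriesParallel P)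
    (hb : balance P < 2 / 5) : balance P = 0 ∨ balance P = 1 / 3 ∨ balance P = 8 / 21 := by
  have h7 := (iff_lt h).2 hb
  have hne := h7.nonempty
  rcases sp_gap P h with h1 | h1
  · rcases InD_third h1 with h2 | h2
    · exact Or.inl (balance_chain h2)
    · exact Or.inr (Or.inl (le_antisymm (InD_le h1) h2))
  · exact Or.inr (Or.inr (le_antisymm (InD7_le h7) h1))

/-! ### Width -/

lemma InD7_cover {P : Type} [PartialOrder P] (h : InD7 P) :
    ∃ f : P → Fin 3, ∀ p q, f p = f q → p ≤ q ∨ q ≤ p := by
  induction h with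
  | one P e =>
    obtain ⟨e⟩ := e
    exact ⟨fun _ => 0, fun p q _ => Or.inl (e.le_iff_le.mp (by
      rw [Subsingleton.elim (e p) (e q)]))⟩
  | three P e =>
    obtain ⟨e⟩ := e
    refine ⟨fun p => Sum.elim (fun _ => 0) (fun _ => 1) (e p), fun p q h => ?_⟩
    rw [← e.le_iff_le, ← e.le_iff_le (x := q)]
    simp only at h
    rcases hp : e p with a | a <;> rcases hq : e q with b | b
    · rcases le_total a b with h1 | h1
      · exact Or.inl (Sum.inl_le_inl_iff.2 h1)
      · exact Or.inr (Sum.inl_le_inl_iff.2 h1)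
    · rw [hp, hq] at h
      simp at h
    · rw [hp, hq] at h
      simp at h
    · obtain rfl : a = b := Subsingleton.elim _ _
      exact Or.inl le_rfl
  | seven P e =>
    obtain ⟨e⟩ := e
    refine ⟨fun p => chainMap (e p), fun p q h => ?_⟩
    rw [← e.le_iff_le, ← e.le_iff_le (x := q)]
    exact chainMap_comp _ _ h
  | sum P Q R _ _ e i1 i2 =>
    obtain ⟨e⟩ := e
    obtain ⟨f, hf⟩ := i1
    obtain ⟨g, hg⟩ := i2
    refine ⟨fun r => Sum.elim f g (ofLex (e r)), fun p q h => ?_⟩
    rw [← e.le_iff_le, ← e.le_iff_le (x := q)]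
    simp only at h
    rcases hp : e p with a | a <;> rcases hq : e q with b | b
    · rw [hp, hq] at h
      rcases hf a b h with h1 | h1
      · exact Or.inl (Sum.Lex.inl h1)
      · exact Or.inr (Sum.Lex.inl h1)
    · exact Or.inl (Sum.Lex.sep _ _)
    · exact Or.inr (Sum.Lex.sep _ _)
    · rw [hp, hq] at h
      rcases hg a b h with h1 | h1
      · exact Or.inl (Sum.Lex.inr h1)
      · exact Or.inr (Sum.Lex.inr h1)

lemma InD7_width_le {P : Type} [PartialOrder P] (h : InD7 P) (s : Finset P)
    (hs : IsAntichain (· ≤ ·) (s : Set P)) : s.card ≤ 3 := by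
  classical
  obtain ⟨f, hf⟩ := InD7_cover h
  by_contra hc
  have hcard : (univ : Finset (Fin 3)).card < s.card := by
    rw [card_univ, Fintype.card_fin]; omega
  obtain ⟨p, hp, q, hq, hpq, he⟩ := exists_ne_map_eq_of_card_lt_of_maps_to hcard
    (f := f) (fun _ _ => mem_univ _)
  rcases hf p q he with h | h
  · exact hs hp hq hpq h
  · exact hs hq hp hpq.symm h

lemma sp_antichain {P : Type} [Fintype P] [PartialOrder P] (h : SeriesParallel P) (s : Finset P)
    (hs : IsAntichain (· ≤ ·) (s : Set P)) (h4 : 4 ≤ s.card) : 2 / 5 ≤ balance P := by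
  rcases (sp_gap7 h).2 with h1 | h1
  · have := InD7_width_le h1 s hs
    omega
  · exact h1

theorem dSP_four (w : ℕ) (hw : 4 ≤ w) : 2 / 5 ≤ dSP w :=
  dSP_ge (by omega) fun P _ _ h1 h2 => by
    obtain ⟨s, hs, hc⟩ := h2.1
    exact sp_antichain h1 s hs (by omega)

/-! ### The value `2/5` is attained -/

lemma fin_rank {n : ℕ} (f : LEn (Fin n) n) (x : Fin n) : f.1 x = x := by
  have hs : StrictMono f.1 := f.2.strictMono_of_injective f.1.injective
  have e : Fin n ≃o Fin n := ⟨f.1, hs.le_iff_le⟩
  have h1 : (⟨f.1, hs.le_iff_le⟩ : Fin n ≃o Fin n) = OrderIso.refl _ := Subsingleton.elim _ _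
  have h2 := congrArg (fun g : Fin n ≃o Fin n => g x) h1
  exact h2

lemma avg_fin (n : ℕ) (x : Fin n) (φ : ℕ → ℝ) : avg (Fin n) n x φ = φ x := by
  unfold avg
  simp_rw [fin_rank]
  have h := card_ne (P := Fin n) (n := n) (by simp)
  rw [Finset.sum_const, Finset.card_univ, nsmul_eq_mul]
  field_simp

lemma FF41 {i : ℕ} (hi : i < 4) : FF 4 1 i 0 = (4 - i : ℝ) / 5 := by
  rw [FF_eq_Kf hi (by norm_num)]
  have : i = 0 ∨ i = 1 ∨ i = 2 ∨ i = 3 := by omega
  rcases this with rfl | rfl | rfl | rfl <;> simp [Kf] <;> norm_num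

/-- the disjoint sum of a chain with four elements and a point -/
abbrev F4 := Fin 4 ⊕ Fin 1

lemma pr_F4 (x : Fin 4) : pr F4 5 (Sum.inl x) (Sum.inr 0) = (4 - (x : ℕ) : ℝ) / 5 := by
  have := pr_disj_cross (P := Fin 4) (Q := Fin 1) (n := 4) (m := 1) (by simp) (by simp) x 0
  rw [show (5 : ℕ) = 4 + 1 by rfl, this, avg_fin, avg_one, FF41 x.2]

lemma balance_F4_ge : 2 / 5 ≤ balance F4 := by
  apply le_balance2 (x := Sum.inl 1) (y := Sum.inr 0) (by simp)
  · rw [prob_eq (n := 5) (by simp), pr_F4]; norm_num
  · rw [prob_eq (n := 5) (by simp), pr_F4]; norm_num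

lemma cross_F4 (x : Fin 4) : min (pr F4 5 (Sum.inl x) (Sum.inr 0))
    (pr F4 5 (Sum.inr 0) (Sum.inl x)) ≤ 2 / 5 := by
  have h2 : pr F4 5 (Sum.inl x) (Sum.inr 0) + pr F4 5 (Sum.inr 0) (Sum.inl x) = 1 :=
    pr_add (by simp) (by simp)
  rw [pr_F4] at h2 ⊢
  have hx : x = 0 ∨ x = 1 ∨ x = 2 ∨ x = 3 := by omega
  rcases hx with rfl | rfl | rfl | rfl
  · refine (min_le_right _ _).trans ?_
    norm_num at h2 ⊢
    linarith
  · refine (min_le_right _ _).trans ?_
    norm_num at h2 ⊢
    linarith
  · exact (min_le_left _ _).trans (by norm_num)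
  · exact (min_le_left _ _).trans (by norm_num)

lemma balance_F4 : balance F4 = 2 / 5 := by
  refine le_antisymm ?_ balance_F4_ge
  have hc5 : Fintype.card F4 = 5 := by simp
  have : Nonempty (F4 × F4) := ⟨(Sum.inr 0, Sum.inr 0)⟩
  unfold balance
  apply ciSup_le
  rintro ⟨p, q⟩
  simp only
  rw [prob_eq hc5, prob_eq hc5]
  rcases p with p | p <;> rcases q with q | q
  · rcases lt_trichotomy p q with h | h | h
    · refine (min_le_right _ _).trans ?_
      rw [pr_zero_of_lt (Sum.inl_lt_inl_iff.2 h)]
      norm_num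
    · rw [h, pr_self]
      norm_num
    · refine (min_le_left _ _).trans ?_
      rw [pr_zero_of_lt (Sum.inl_lt_inl_iff.2 h)]
      norm_num
  · rw [Subsingleton.elim q 0]
    exact cross_F4 p
  · rw [Subsingleton.elim p 0, min_comm]
    exact cross_F4 q
  · rw [Subsingleton.elim q p, pr_self]
    norm_num

lemma sp_fin (n : ℕ) : SeriesParallel (Fin (n + 1)) := by
  induction n with
  | zero => exact sp_one
  | succ n ih =>
    refine SeriesParallel.direct (Fin (n + 1)) (Fin 1) _ ih sp_one ⟨?_⟩
    refine Fintype.orderIsoFinOfCardEq ((Fin (n + 1)) ⊕ₗ (Fin 1)) ?_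
    rw [card_lexS]
    simp

lemma sp_F4 : SeriesParallel F4 :=
  SeriesParallel.disj _ _ _ (sp_fin 3) sp_one ⟨OrderIso.refl _⟩

lemma width_F4 : HasWidth F4 2 := by
  classical
  refine ⟨⟨{Sum.inl 0, Sum.inr 0}, ?_, card_pair (by simp)⟩, fun s hs => ?_⟩
  · intro a ha b hb hab hle
    simp only [coe_insert, coe_singleton, Set.mem_insert_iff, Set.mem_singleton_iff] at ha hb
    rcases ha with rfl | rfl <;> rcases hb with rfl | rfl
    · exact hab rfl
    · exact Sum.not_inl_le_inr hle
    · exact Sum.not_inr_le_inl hle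
    · exact hab rfl
  · by_contra hc
    have hcard : (univ : Finset (Fin 2)).card < s.card := by
      rw [card_univ, Fintype.card_fin]; omega
    obtain ⟨p, hp, q, hq, hpq, he⟩ := exists_ne_map_eq_of_card_lt_of_maps_to hcard
      (f := Sum.elim (fun _ => (0 : Fin 2)) (fun _ => 1)) (fun _ _ => mem_univ _)
    rcases p with p | p <;> rcases q with q | q
    · rcases le_total p q with h | h
      · exact hs hp hq hpq (Sum.inl_le_inl_iff.2 h)
      · exact hs hq hp hpq.symm (Sum.inl_le_inl_iff.2 h)
    · simp at he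
    · simp at he
    · exact hpq (by rw [Subsingleton.elim p q])

/-! ### All posets -/

/-- `P` is connected, is not a direct sum, and all its nonempty proper autonomous subsets lie in
the class `InD7`. -/
def Irreducible7 (P : Type) [PartialOrder P] : Prop :=
  (∀ (A B : Type) [PartialOrder A] [PartialOrder B] [Nonempty A] [Nonempty B],
    IsEmpty (P ≃o (A ⊕ B))) ∧
  (∀ (A B : Type) [PartialOrder A] [PartialOrder B] [Nonempty A] [Nonempty B],
    IsEmpty (P ≃o (A ⊕ₗ B))) ∧
  (∀ M : Set P, M.Nonempty → M ≠ Set.univ → Autonomous M → InD7 M)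

lemma gap_sum7c {P Q : Type} [Fintype P] [Fintype Q] [PartialOrder P] [PartialOrder Q]
    [Nonempty P] [Nonempty Q] {c : ℝ} (hc : c ≤ 2 / 5) (hP : InD7 P ∨ c ≤ balance P)
    (hQ : InD7 Q ∨ c ≤ balance Q) : InD7 (P ⊕ Q) ∨ c ≤ balance (P ⊕ Q) := by
  rcases hP with hP | hP
  · rcases hQ with hQ | hQ
    · rcases cross_sum7 hP hQ with h | h
      · exact Or.inl h
      · exact Or.inr (hc.trans h)
    · exact Or.inr (hQ.trans balance_sum_right)
  · exact Or.inr (hP.trans balance_sum_left)

lemma gap_lex7c {P Q : Type} [Fintype P] [Fintype Q] [PartialOrder P] [PartialOrder Q]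
    [Nonempty P] [Nonempty Q] {c : ℝ} (hP : InD7 P ∨ c ≤ balance P)
    (hQ : InD7 Q ∨ c ≤ balance Q) : InD7 (P ⊕ₗ Q) ∨ c ≤ balance (P ⊕ₗ Q) := by
  rcases hP with hP | hP
  · rcases hQ with hQ | hQ
    · exact Or.inl (InD7.sum P Q _ hP hQ ⟨OrderIso.refl _⟩)
    · exact Or.inr (hQ.trans balance_lex_right)
  · exact Or.inr (hP.trans balance_lex_left)

theorem reduction7 {c : ℝ} (hc : c ≤ 2 / 5)
    (h : ∀ (P : Type) [Fintype P] [PartialOrder P] [Nonempty P], Irreducible7 P →
      InD7 P ∨ c ≤ balance P) :
    ∀ (P : Type) [Fintype P] [PartialOrder P] [Nonempty P], InD7 P ∨ c ≤ balance P := by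
  have key : ∀ (N : ℕ) (P : Type) [Fintype P] [PartialOrder P] [Nonempty P],
      Fintype.card P = N → InD7 P ∨ c ≤ balance P := by
    intro N
    induction N using Nat.strong_induction_on with
    | _ N ih =>
      intro P _ _ _ hP
      by_cases hI : Irreducible7 P
      · exact h P hI
      unfold Irreducible7 at hI
      by_cases h1 : ∃ (A B : Type) (_ : PartialOrder A) (_ : PartialOrder B), Nonempty A ∧
          Nonempty B ∧ Nonempty (P ≃o (A ⊕ B))
      · obtain ⟨A, B, _, _, hA, hB, ⟨e⟩⟩ := h1
        have fA : Finite A := Finite.of_injective (fun x : A => e.symm (Sum.inl x))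
          (fun a b h => Sum.inl_injective (e.symm.injective h))
        have fB : Finite B := Finite.of_injective (fun x : B => e.symm (Sum.inr x))
          (fun a b h => Sum.inr_injective (e.symm.injective h))
        have := Fintype.ofFinite A
        have := Fintype.ofFinite B
        have hcard := card_of_iso_sum e.toEquiv
        rw [Nat.card_eq_fintype_card, Nat.card_eq_fintype_card] at hcard
        have pA : 0 < Fintype.card A := Fintype.card_pos
        have pB : 0 < Fintype.card B := Fintype.card_pos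
        have g1 := ih (Fintype.card A) (by omega) A rfl
        have g2 := ih (Fintype.card B) (by omega) B rfl
        rcases gap_sum7c hc g1 g2 with h3 | h3
        · exact Or.inl (InD7.iso h3 e.symm)
        · exact Or.inr (h3.trans (balance_iso e.symm))
      by_cases h2 : ∃ (A B : Type) (_ : PartialOrder A) (_ : PartialOrder B), Nonempty A ∧
          Nonempty B ∧ Nonempty (P ≃o (A ⊕ₗ B))
      · obtain ⟨A, B, _, _, hA, hB, ⟨e⟩⟩ := h2
        have fA : Finite A := Finite.of_injective (fun x : A => e.symm (toLex (Sum.inl x)))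
          (fun a b h => Sum.inl_injective (toLex.injective (e.symm.injective h)))
        have fB : Finite B := Finite.of_injective (fun x : B => e.symm (toLex (Sum.inr x)))
          (fun a b h => Sum.inr_injective (toLex.injective (e.symm.injective h)))
        have := Fintype.ofFinite A
        have := Fintype.ofFinite B
        have hcard := card_of_iso_sum (A := A) (B := B) e.toEquiv
        rw [Nat.card_eq_fintype_card, Nat.card_eq_fintype_card] at hcard
        have pA : 0 < Fintype.card A := Fintype.card_pos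
        have pB : 0 < Fintype.card B := Fintype.card_pos
        have g1 := ih (Fintype.card A) (by omega) A rfl
        have g2 := ih (Fintype.card B) (by omega) B rfl
        have hne : Nonempty (A ⊕ₗ B) := ⟨toLex (Sum.inl hA.some)⟩
        rcases gap_lex7c g1 g2 with h3 | h3
        · exact Or.inl (InD7.iso h3 e.symm)
        · exact Or.inr (h3.trans (balance_iso e.symm))
      have h3 : ∃ M : Set P, M.Nonempty ∧ M ≠ Set.univ ∧ Autonomous M ∧ ¬ InD7 M := by
        by_contra hcon
        push Not at hcon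
        apply hI
        refine ⟨?_, ?_, ?_⟩
        · intro A B _ _ hA hB
          by_contra h4
          rw [not_isEmpty_iff] at h4
          exact h1 ⟨A, B, _, _, hA, hB, h4⟩
        · intro A B _ _ hA hB
          by_contra h4
          rw [not_isEmpty_iff] at h4
          exact h2 ⟨A, B, _, _, hA, hB, h4⟩
        · intro M m1 m2 m3
          exact hcon M m1 m2 m3
      obtain ⟨M, m1, m2, m3, m4⟩ := h3
      have fM : Finite M := inferInstance
      have := Fintype.ofFinite M
      have nM : Nonempty M := m1.to_subtype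
      have hlt : Fintype.card M < Fintype.card P := by
        rw [← Nat.card_eq_fintype_card, ← Nat.card_eq_fintype_card]
        have h5 : M ⊂ Set.univ := Set.ssubset_univ_iff.2 m2
        have h6 := Set.ncard_lt_ncard h5 (Set.finite_univ)
        rw [Set.ncard_univ] at h6
        exact h6
      rcases ih (Fintype.card M) (by omega) M rfl with h6 | h6
      · exact absurd h6 m4
      · exact Or.inr (h6.trans (balance_autonomous m3))
  intro P _ _ _
  exact key _ P rfl

/-- a poset with an autonomous subset which is a series-parallel poset outside the class -/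
theorem autonomous7 {P : Type} [Fintype P] [PartialOrder P] {M : Set P} (hM : Autonomous M)
    (h1 : SeriesParallel M) (h2 : ¬ InD7 M) : 2 / 5 ≤ balance P := by
  have fM : Finite M := inferInstance
  have := Fintype.ofFinite M
  obtain ⟨nM, h3⟩ := sp_gap7 h1
  rcases h3 with h3 | h3
  · exact absurd h3 h2
  · exact h3.trans (balance_autonomous hM)

end Pool.Agent.Q66.SP
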